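import Pool.Agent.Helper3.Q1.Words

/-! Module (G), part 1: the kernel built from the alphabet `Al k`. -/

namespace Pool.Agent.Helper89.Q1

open Finset Pool.Agent.Helper3.Q1

theorem mem_comps : ∀ (n d : ℕ) (w : List ℕ), w ∈ comps n d ↔ w.length = n ∧ w.sum = d ∧ ∀ a ∈ w, 1 ≤ a := by
  intro n
  induction n with
  | zero =>
    intro d w
    cases d with
    | zero =>
      simp only [comps, mem_singleton]
      constructor
      · rintro rfl; simp
      · rintro ⟨h, -, -⟩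
        exact List.length_eq_zero_iff.mp h
    | succ d =>
      simp only [comps, notMem_empty, false_iff]
      rintro ⟨h, h2, -⟩
      rw [List.length_eq_zero_iff] at h
      subst h
      simp at h2
  | succ n ih =>
    intro d w
    simp only [comps, mem_biUnion, mem_range, mem_image]
    constructor
    · rintro ⟨a, ha, v, hv, rfl⟩
      obtain ⟨h1, h2, h3⟩ := (ih _ _).mp hv
      refine ⟨by simp [h1], by simp [h2]; omega, ?_⟩
      intro b hb
      rcases List.mem_cons.mp hb with rfl | hb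
      · omega
      · exact h3 b hb
    · rintro ⟨h1, h2, h3⟩
      cases w with
      | nil => simp at h1
      | cons b v =>
        have hb : 1 ≤ b := h3 b (by simp)
        simp only [List.sum_cons] at h2
        refine ⟨b - 1, by omega, v, (ih _ _).mpr ⟨by simpa using h1, by omega, fun c hc => h3 c (by simp [hc])⟩, ?_⟩
        have : b - 1 + 1 = b := by omega
        rw [this]

theorem mem_Al {k : ℕ} {w : List ℕ} : w ∈ Al k ↔ w.length = k ∧ (∀ a ∈ w, 1 ≤ a) ∧ 9 * k ≤ 5 * w.sum ∧ w.sum ≤ 7 * k := by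
  unfold Al
  simp only [mem_biUnion, mem_filter, mem_range, mem_comps]
  constructor
  · rintro ⟨d, ⟨h1, h2⟩, h3, h4, h5⟩
    subst h4
    exact ⟨h3, h5, h2, by omega⟩
  · rintro ⟨h1, h2, h3, h4⟩
    exact ⟨w.sum, ⟨by omega, h3⟩, h1, rfl, h2⟩

/-- an admissible continuation -/
def gd (w : List ℕ) (x : ℤ) : Prop := cp w x ∧ ¬ (3 : ℤ) ∣ nx w x

theorem gd_append {v w : List ℕ} {x : ℤ} (hv : gd v x) (hw : gd w (nx v x)) : gd (v ++ w) x := by
  have h : cp (v ++ w) x := cp_append.mpr ⟨hv.1, hw.1⟩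
  refine ⟨h, ?_⟩
  rw [nx_append h]
  exact hw.2

theorem gd_single {a : ℕ} {x : ℤ} (h : (2 ^ a * x) % 9 = 4 ∨ (2 ^ a * x) % 9 = 7) : gd [a] x := by
  rcases h with h | h
  · have h1 : (3 : ℤ) ^ [a].length * (3 * ((2 ^ a * x) / 9) + 1) = 2 ^ [a].sum * x - cw [a] := by
      simp only [List.length_singleton, List.sum_singleton, cw, List.sum_nil, pow_one, pow_zero]
      obtain ⟨q, hq⟩ : ∃ q : ℤ, q = 2 ^ a * x := ⟨_, rfl⟩
      rw [← hq] at h ⊢
      omega
    obtain ⟨h2, h3⟩ := nx_of_mul h1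
    refine ⟨h2, ?_⟩
    rw [h3]
    omega
  · have h1 : (3 : ℤ) ^ [a].length * (3 * ((2 ^ a * x) / 9) + 2) = 2 ^ [a].sum * x - cw [a] := by
      simp only [List.length_singleton, List.sum_singleton, cw, List.sum_nil, pow_one, pow_zero]
      obtain ⟨q, hq⟩ : ∃ q : ℤ, q = 2 ^ a * x := ⟨_, rfl⟩
      rw [← hq] at h ⊢
      omega
    obtain ⟨h2, h3⟩ := nx_of_mul h1
    refine ⟨h2, ?_⟩
    rw [h3]
    omega

theorem two_steps {x : ℤ} (hx : ¬ (3 : ℤ) ∣ x) :
    ∃ a b : ℕ, a ≠ b ∧ (2 ≤ a ∧ a ≤ 7) ∧ (2 ≤ b ∧ b ≤ 7) ∧ gd [a] x ∧ gd [b] x := by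
  have h : x % 9 = 1 ∨ x % 9 = 2 ∨ x % 9 = 4 ∨ x % 9 = 5 ∨ x % 9 = 7 ∨ x % 9 = 8 := by omega
  rcases h with h | h | h | h | h | h
  · exact ⟨2, 4, by norm_num, by norm_num, by norm_num, gd_single (by norm_num; omega), gd_single (by norm_num; omega)⟩
  · exact ⟨7, 3, by norm_num, by norm_num, by norm_num, gd_single (by norm_num; omega), gd_single (by norm_num; omega)⟩
  · exact ⟨6, 2, by norm_num, by norm_num, by norm_num, gd_single (by norm_num; omega), gd_single (by norm_num; omega)⟩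
  · exact ⟨3, 5, by norm_num, by norm_num, by norm_num, gd_single (by norm_num; omega), gd_single (by norm_num; omega)⟩
  · exact ⟨4, 6, by norm_num, by norm_num, by norm_num, gd_single (by norm_num; omega), gd_single (by norm_num; omega)⟩
  · exact ⟨5, 7, by norm_num, by norm_num, by norm_num, gd_single (by norm_num; omega), gd_single (by norm_num; omega)⟩

theorem exists_word (k : ℕ) : ∀ x : ℤ, ¬ (3 : ℤ) ∣ x →
    ∃ w : List ℕ, w.length = k ∧ (∀ a ∈ w, 2 ≤ a ∧ a ≤ 7) ∧ gd w x := by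
  induction k with
  | zero =>
    intro x hx
    exact ⟨[], rfl, by simp, cp_nil x, by rwa [nx_nil]⟩
  | succ k ih =>
    intro x hx
    obtain ⟨a, b, -, ha, -, hga, -⟩ := two_steps hx
    obtain ⟨w, h1, h2, h3⟩ := ih _ hga.2
    refine ⟨[a] ++ w, by simp [h1], ?_, gd_append hga h3⟩
    intro c hc
    simp only [List.singleton_append, List.mem_cons] at hc
    rcases hc with rfl | hc
    · exact ha
    · exact h2 c hc

theorem sum_bounds (w : List ℕ) (h : ∀ a ∈ w, 2 ≤ a ∧ a ≤ 7) : 2 * w.length ≤ w.sum ∧ w.sum ≤ 7 * w.length := by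
  induction w with
  | nil => simp
  | cons a w ih =>
    have h1 := h a (by simp)
    have h2 := ih (fun b hb => h b (by simp [hb]))
    simp only [List.length_cons, List.sum_cons]
    omega

theorem mem_Al_of {w : List ℕ} (h : ∀ a ∈ w, 2 ≤ a ∧ a ≤ 7) : w ∈ Al w.length := by
  have := sum_bounds w h
  exact mem_Al.mpr ⟨rfl, fun a ha => by have := h a ha; omega, by omega, this.2⟩

theorem two_words {k : ℕ} (hk : 1 ≤ k) {x : ℤ} (hx : ¬ (3 : ℤ) ∣ x) :
    ∃ v w : List ℕ, v ≠ w ∧ v ∈ Al k ∧ w ∈ Al k ∧ gd v x ∧ gd w x := by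
  obtain ⟨n, rfl⟩ := Nat.exists_eq_add_of_le hk
  obtain ⟨a, b, hab, ha, hb, hga, hgb⟩ := two_steps hx
  obtain ⟨v, v1, v2, v3⟩ := exists_word n _ hga.2
  obtain ⟨w, w1, w2, w3⟩ := exists_word n _ hgb.2
  refine ⟨a :: v, b :: w, ?_, ?_, ?_, ?_, ?_⟩
  · intro h
    exact hab (List.cons.inj h).1
  · have := mem_Al_of (w := a :: v) (by
      intro c hc
      rcases List.mem_cons.mp hc with rfl | hc
      · exact ha
      · exact v2 c hc)
    rwa [List.length_cons, v1, add_comm] at this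
  · have := mem_Al_of (w := b :: w) (by
      intro c hc
      rcases List.mem_cons.mp hc with rfl | hc
      · exact hb
      · exact w2 c hc)
    rwa [List.length_cons, w1, add_comm] at this
  · simpa using gd_append hga v3
  · simpa using gd_append hgb w3

theorem gd_per {k : ℕ} {w : List ℕ} (hw : w.length = k) (x : ℤ) : gd w (x + 3 ^ (k + 1)) ↔ gd w x := by
  have e : x + 3 ^ (k + 1) = x + 3 ^ w.length * 3 := by rw [hw]; ring
  unfold gd
  rw [e, cp_shift]
  constructor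
  · rintro ⟨h1, h2⟩
    refine ⟨h1, ?_⟩
    rw [nx_shift h1] at h2
    intro h
    exact h2 (dvd_add h (Dvd.intro_left _ rfl))
  · rintro ⟨h1, h2⟩
    refine ⟨h1, ?_⟩
    rw [nx_shift h1]
    intro h
    exact h2 ((dvd_add_left (Dvd.intro_left _ rfl)).mp h)

/-- weight of a word at `x` -/
noncomputable def wt (w : List ℕ) (x : ℤ) : ℝ := by
  classical exact if gd w x then (3 : ℝ) ^ w.length / 2 ^ w.sum else 0

theorem wt_nonneg (w : List ℕ) (x : ℤ) : 0 ≤ wt w x := by
  unfold wt; split_ifs <;> positivity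

theorem Zk_eq (k : ℕ) (x : ℤ) : Zk k x = ∑ w ∈ Al k, wt w x := by
  unfold Zk
  apply sum_congr rfl
  intro w hw
  have := (mem_Al.mp hw).1
  unfold wt gd
  rw [this]
  congr

theorem wt_of_gd {w : List ℕ} {x : ℤ} (h : gd w x) : wt w x = (3 : ℝ) ^ w.length / 2 ^ w.sum := by
  unfold wt; rw [if_pos h]

theorem wt_of_not {w : List ℕ} {x : ℤ} (h : ¬ gd w x) : wt w x = 0 := by
  unfold wt; rw [if_neg h]

theorem wt_per {k : ℕ} {w : List ℕ} (hw : w.length = k) (x : ℤ) : wt w (x + 3 ^ (k + 1)) = wt w x := by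
  by_cases h : gd w x
  · rw [wt_of_gd h, wt_of_gd ((gd_per hw x).mpr h)]
  · rw [wt_of_not h, wt_of_not (fun h' => h ((gd_per hw x).mp h'))]

theorem Zk_per (k : ℕ) (x : ℤ) : Zk k (x + 3 ^ (k + 1)) = Zk k x := by
  rw [Zk_eq, Zk_eq]
  exact sum_congr rfl (fun w hw => wt_per (mem_Al.mp hw).1 x)

theorem wt_lower {k : ℕ} {w : List ℕ} (hw : w ∈ Al k) {x : ℤ} (h : gd w x) : (3 : ℝ) ^ k / 2 ^ (7 * k) ≤ wt w x := by
  obtain ⟨h1, -, -, h4⟩ := mem_Al.mp hw
  rw [wt_of_gd h, h1]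
  apply div_le_div_of_nonneg_left (by positivity) (by positivity)
  exact pow_le_pow_right₀ (by norm_num) h4

theorem wt_upper {k : ℕ} {w : List ℕ} (hw : w ∈ Al k) (x : ℤ) : wt w x ≤ (3 : ℝ) ^ k := by
  obtain ⟨h1, -, -, h4⟩ := mem_Al.mp hw
  by_cases h : gd w x
  · rw [wt_of_gd h, h1]
    exact div_le_self (by positivity) (one_le_pow₀ (by norm_num))
  · rw [wt_of_not h]; positivity

theorem Zk_pos {k : ℕ} {x : ℤ} (hx : ¬ (3 : ℤ) ∣ x) : 0 < Zk k x := by
  obtain ⟨w, h1, h2, h3⟩ := exists_word k x hx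
  have hw : w ∈ Al k := by rw [← h1]; exact mem_Al_of h2
  rw [Zk_eq]
  have : 0 < wt w x := lt_of_lt_of_le (by positivity) (wt_lower hw h3)
  exact lt_of_lt_of_le this (single_le_sum (f := fun w => wt w x) (fun v _ => wt_nonneg v x) hw)

theorem Zk_le (k : ℕ) (x : ℤ) : Zk k x ≤ (Al k).card * (3 : ℝ) ^ k := by
  rw [Zk_eq]
  calc ∑ w ∈ Al k, wt w x ≤ ∑ w ∈ Al k, (3 : ℝ) ^ k := sum_le_sum (fun w hw => wt_upper hw x)
    _ = _ := by rw [sum_const, nsmul_eq_mul]

/-- transition probabilities -/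
noncomputable def kap (k : ℕ) (w : List ℕ) (x : ℤ) : ℝ := by
  classical exact if w ∈ Al k then wt w x / Zk k x else 0

theorem kap_eq {k : ℕ} {w : List ℕ} (hw : w ∈ Al k) (x : ℤ) : kap k w x = wt w x / Zk k x := by
  unfold kap; rw [if_pos hw]

theorem Zk_nonneg (k : ℕ) (x : ℤ) : 0 ≤ Zk k x := by
  rw [Zk_eq]; exact sum_nonneg (fun w _ => wt_nonneg w x)

theorem kap_nonneg (k : ℕ) (w : List ℕ) (x : ℤ) : 0 ≤ kap k w x := by
  unfold kap
  split_ifs
  · exact div_nonneg (wt_nonneg w x) (Zk_nonneg k x)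
  · exact le_refl 0

theorem kap_sum {k : ℕ} {x : ℤ} (hx : ¬ (3 : ℤ) ∣ x) : ∑ w ∈ Al k, kap k w x = 1 := by
  rw [sum_congr rfl (fun w hw => kap_eq hw x), ← sum_div, ← Zk_eq, div_self (Zk_pos hx).ne']

/-- lower bound for positive transition probabilities -/
noncomputable def dl (k : ℕ) : ℝ := 1 / (2 ^ (7 * k) * (Al k).card)

theorem kap_lower {k : ℕ} {w : List ℕ} (hw : w ∈ Al k) {x : ℤ} (hx : ¬ (3 : ℤ) ∣ x) (h : gd w x) : dl k ≤ kap k w x := by
  rw [kap_eq hw, dl, div_le_div_iff₀ (by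
    have : 0 < (Al k).card := card_pos.mpr ⟨w, hw⟩
    positivity) (Zk_pos hx), one_mul]
  have h1 := wt_lower hw h
  have h2 := Zk_le k x
  have hc : (0 : ℝ) ≤ (Al k).card := by positivity
  rw [div_le_iff₀ (by positivity)] at h1
  calc Zk k x ≤ (Al k).card * 3 ^ k := h2
    _ ≤ (Al k).card * (wt w x * 2 ^ (7 * k)) := mul_le_mul_of_nonneg_left h1 hc
    _ = _ := by ring

theorem ent_lower {k : ℕ} (hk : 1 ≤ k) {x : ℤ} (hx : ¬ (3 : ℤ) ∣ x) :
    0 < dl k ∧ dl k < 1 ∧ dl k * (-Real.log (1 - dl k)) ≤ ∑ w ∈ Al k, Real.negMulLog (kap k w x) := by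
  obtain ⟨v, w, hvw, hv, hw, gv, gw⟩ := two_words hk hx
  have hd : 0 < dl k := by
    have : 0 < (Al k).card := card_pos.mpr ⟨w, hw⟩
    unfold dl; positivity
  have lv := kap_lower hv hx gv
  have lw := kap_lower hw hx gw
  have hs : kap k v x + kap k w x ≤ 1 := by
    rw [← kap_sum (k := k) hx, ← sum_pair (f := fun w => kap k w x) hvw]
    apply sum_le_sum_of_subset_of_nonneg
    · intro u hu
      rcases mem_insert.mp hu with rfl | hu
      · exact hv
      · rw [mem_singleton.mp hu]; exact hw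
    · intro u _ _
      exact kap_nonneg k u x
  have hd1 : dl k < 1 := by linarith
  refine ⟨hd, hd1, ?_⟩
  have hnn : ∀ u ∈ Al k, 0 ≤ Real.negMulLog (kap k u x) := by
    intro u hu
    apply Real.negMulLog_nonneg (kap_nonneg k u x)
    rw [← kap_sum (k := k) hx]
    exact single_le_sum (f := fun w => kap k w x) (fun v _ => kap_nonneg k v x) hu
  refine le_trans ?_ (single_le_sum (f := fun w => Real.negMulLog (kap k w x)) hnn hv)
  show dl k * (-Real.log (1 - dl k)) ≤ Real.negMulLog (kap k v x)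
  have h0 : 0 < kap k v x := lt_of_lt_of_le hd lv
  have h1 : kap k v x ≤ 1 - dl k := by linarith
  have hlog : Real.log (kap k v x) ≤ Real.log (1 - dl k) := Real.log_le_log h0 h1
  have hlog2 : Real.log (1 - dl k) ≤ 0 := Real.log_nonpos (by linarith) (by linarith)
  unfold Real.negMulLog
  nlinarith

/-- the kernel with block length `k` -/
noncomputable def KK (k : ℕ) (hk : 1 ≤ k) : Ker where
  k := k
  hk := hk
  A := Al k
  len := fun w hw => (mem_Al.mp hw).1
  ge1 := fun w hw => (mem_Al.mp hw).2.1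
  κ := kap k
  nonneg := kap_nonneg k
  supp := by
    intro w hw x h
    by_contra hg
    apply h
    rw [kap_eq hw, wt_of_not hg, zero_div]
  per := by
    intro w x
    by_cases hw : w ∈ Al k
    · rw [kap_eq hw, kap_eq hw, wt_per (mem_Al.mp hw).1, Zk_per]
    · unfold kap; rw [if_neg hw, if_neg hw]
  one := fun x hx => kap_sum hx
  c0 := dl k * (-Real.log (1 - dl k))
  c0pos := by
    obtain ⟨h1, h2, -⟩ := ent_lower hk (x := 1) (by norm_num)
    have : Real.log (1 - dl k) < 0 := Real.log_neg (by linarith) (by linarith)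
    exact mul_pos h1 (by linarith)
  ent := fun x hx => (ent_lower hk hx).2.2

end Pool.Agent.Helper89.Q1
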