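import Pool.Agent.Helper89.Q1.Gibbs

/-! Module (G), part 4: the counting theorem for the basin of every integer prime to 3. -/

namespace Pool.Agent.Helper89.Q1

open Finset Pool.Agent.Helper3.Q1

theorem exists_start {a : ℤ} (ha : ¬ (3 : ℤ) ∣ a) (R : ℝ) :
    ∃ j : ℕ, 1 ≤ j ∧ gd [j] a ∧ R ≤ |(nx [j] a : ℝ)| ∧ nx [j] a % 2 = 1 ∧ (0 < a → 0 < nx [j] a) ∧ (a < 0 → nx [j] a < 0) := by
  have hj0 : ∃ j0 : ℕ, 1 ≤ j0 ∧ (2 ^ j0 * a) % 9 = 4 := by
    have h : a % 9 = 1 ∨ a % 9 = 2 ∨ a % 9 = 4 ∨ a % 9 = 5 ∨ a % 9 = 7 ∨ a % 9 = 8 := by omega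
    rcases h with h | h | h | h | h | h
    · exact ⟨2, by norm_num, by norm_num; omega⟩
    · exact ⟨1, by norm_num, by norm_num; omega⟩
    · exact ⟨6, by norm_num, by norm_num; omega⟩
    · exact ⟨3, by norm_num, by norm_num; omega⟩
    · exact ⟨4, by norm_num, by norm_num; omega⟩
    · exact ⟨5, by norm_num, by norm_num; omega⟩
  obtain ⟨j0, hj1, hj⟩ := hj0
  obtain ⟨i, hi⟩ : ∃ i : ℕ, 3 * |R| + 1 ≤ (2 : ℝ) ^ i := by
    obtain ⟨i, hi⟩ := pow_unbounded_of_one_lt (3 * |R| + 1) (by norm_num : (1 : ℝ) < 2)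
    exact ⟨i, hi.le⟩
  have h64 : ∀ i : ℕ, (64 : ℤ) ^ i % 9 = 1 := by
    intro i
    induction i with
    | zero => norm_num
    | succ i ih => rw [pow_succ, Int.mul_emod, ih]; norm_num
  have hmod : (2 ^ (j0 + 6 * i) * a) % 9 = 4 := by
    have : (2 : ℤ) ^ (j0 + 6 * i) * a = 64 ^ i * (2 ^ j0 * a) := by
      rw [pow_add, pow_mul]; norm_num; ring
    rw [this, Int.mul_emod, h64, hj]; norm_num
  have hg : gd [j0 + 6 * i] a := gd_single (Or.inl hmod)
  have e := nx_mul hg.1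
  simp only [List.length_singleton, List.sum_singleton, cw, List.sum_nil, pow_one, pow_zero] at e
  set y := nx [j0 + 6 * i] a with hy
  have hpow : (2 : ℤ) ^ (j0 + 6 * i) = 2 * 2 ^ (j0 + 6 * i - 1) := by
    rw [← pow_succ']; congr 1; omega
  have ha0 : a ≠ 0 := by intro h; exact ha (h ▸ dvd_zero _)
  refine ⟨j0 + 6 * i, by omega, hg, ?_, ?_, ?_, ?_⟩
  · have e' : (3 : ℝ) * (y : ℝ) = 2 ^ (j0 + 6 * i) * (a : ℝ) - 1 := by
      have : (3 : ℤ) * y = 2 ^ (j0 + 6 * i) * a - 1 := by linarith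
      exact_mod_cast this
    have h1 : (1 : ℝ) ≤ |(a : ℝ)| := by
      have : (1 : ℤ) ≤ |a| := Int.one_le_abs ha0
      exact_mod_cast this
    have h2 : (2 : ℝ) ^ i ≤ 2 ^ (j0 + 6 * i) := pow_le_pow_right₀ (by norm_num) (by omega)
    have h3 : |(3 : ℝ) * (y : ℝ)| = 3 * |(y : ℝ)| := by rw [abs_mul]; norm_num
    have h4 : |(2 : ℝ) ^ (j0 + 6 * i) * (a : ℝ)| - |(1 : ℝ)| ≤ |(3 : ℝ) * (y : ℝ)| := by
      rw [e']; exact abs_sub_abs_le_abs_sub _ _
    rw [h3, abs_mul, abs_one, abs_of_pos (by positivity : (0 : ℝ) < 2 ^ (j0 + 6 * i))] at h4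
    have h5 : (2 : ℝ) ^ (j0 + 6 * i) ≤ 2 ^ (j0 + 6 * i) * |(a : ℝ)| := le_mul_of_one_le_right (by positivity) h1
    have h6 := le_abs_self R
    linarith
  · rw [hpow, mul_assoc] at e
    obtain ⟨q, hq⟩ : ∃ q : ℤ, q = 2 ^ (j0 + 6 * i - 1) * a := ⟨_, rfl⟩
    rw [← hq] at e
    omega
  · intro hp
    have : (1 : ℤ) ≤ 2 ^ (j0 + 6 * i - 1) * a := by
      have := pow_pos (by norm_num : (0 : ℤ) < 2) (j0 + 6 * i - 1)
      nlinarith
    rw [hpow, mul_assoc] at e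
    linarith
  · intro hn
    have : (2 : ℤ) ^ (j0 + 6 * i) * a < 0 := mul_neg_of_pos_of_neg (by positivity) hn
    linarith

/-- the basin of every integer prime to 3, on its own side of 0, has at least `c x^(1-ε)` odd elements below `x` -/
theorem gcount (hERG : ERG) (hAN : AN) {a : ℤ} (ha : ¬ (3 : ℤ) ∣ a) {ε : ℝ} (hε : 0 < ε) :
    ∃ c : ℝ, 0 < c ∧ ∃ x0 : ℝ, ∀ x : ℝ, x0 ≤ x → ∃ S : Finset ℤ,
      (∀ N ∈ S, |(N : ℝ)| < x ∧ N % 2 = 1 ∧ (0 < a → 0 < N) ∧ (a < 0 → N < 0) ∧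
        ∃ w : List ℕ, w ≠ [] ∧ (∀ b ∈ w, 1 ≤ b) ∧ cp w a ∧ nx w a = N) ∧ c * x ^ (1 - ε) ≤ (S.card : ℝ) := by
  classical
  obtain ⟨k, hk10, hk1, hu⟩ := hAN (ε / 64) (by positivity) 10
  obtain ⟨L0, hL0⟩ := hERG (KK k hk1) (psi k) (psi_nonneg k) (psi_per k) (ε / 64) (by positivity)
  obtain ⟨j, hj1, hjg, hjl, hjo, hjp, hjn⟩ := exists_start ha ((2 : ℝ) ^ (k + 1))
  set M := nx [j] a with hM
  have hk5 : 5 ≤ k := by omega
  have hkR : (10 : ℝ) ≤ k := by exact_mod_cast hk10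
  have hl2 : (0.6931471803 : ℝ) < Real.log 2 := Real.log_two_gt_d9
  have hl2' : Real.log 2 < 1 := by have := Real.log_two_lt_d9; linarith
  set CC : ℝ := Real.log (SS k M) + 2 * (ε / 64) * k with hCC
  set D : ℝ := (2 : ℝ) ^ (7 * k + 1) with hD
  have hDpos : 0 < D := by rw [hD]; positivity
  have hMpos : (1 : ℝ) ≤ |(M : ℝ)| := le_trans (one_le_pow₀ (by norm_num)) hjl
  refine ⟨Real.exp (-CC) / (2 * (2 / ε + 1)) / D ^ (1 - ε), by positivity,
    D * (2 ^ k + |(M : ℝ)| + Real.exp (L0 * k) + 1), ?_⟩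
  intro x hx
  set T := x / D with hTdef
  have hxT : x = D * T := by rw [hTdef]; field_simp
  have hT0 : 2 ^ k + |(M : ℝ)| + Real.exp (L0 * k) + 1 ≤ T := by
    rw [hTdef, le_div_iff₀ hDpos]; linarith [mul_comm D (2 ^ k + |(M : ℝ)| + Real.exp (L0 * k) + 1)]
  have hexp : 0 < Real.exp ((L0 : ℝ) * k) := Real.exp_pos _
  have h2k : (0 : ℝ) < 2 ^ k := by positivity
  have hT1 : 1 ≤ T := by linarith
  have hTk : (2 : ℝ) ^ k ≤ T := by linarith
  have hTM : |(M : ℝ)| ≤ T := by linarith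
  have hTe : Real.exp ((L0 : ℝ) * k) ≤ T := by linarith
  have hTpos : 0 < T := by linarith
  have hlogT : (L0 : ℝ) * k ≤ Real.log T := by
    rw [← Real.log_exp ((L0 : ℝ) * k)]; exact Real.log_le_log hexp hTe
  have hlogT0 : 0 ≤ Real.log T := Real.log_nonneg hT1
  set n : ℕ := ⌈10 * Real.log T / (k * Real.log 2)⌉₊ with hn
  have hkl : 0 < (k : ℝ) * Real.log 2 := by positivity
  have hn1 : 10 * Real.log T / (k * Real.log 2) ≤ n := Nat.le_ceil _
  have hn2 : (n : ℝ) < 10 * Real.log T / (k * Real.log 2) + 1 := Nat.ceil_lt_add_one (by positivity)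
  have hnL : L0 ≤ n := by
    have : (L0 : ℝ) ≤ n := by
      refine le_trans ?_ hn1
      rw [le_div_iff₀ hkl]
      have : (L0 : ℝ) * (k * Real.log 2) ≤ L0 * k * 1 := by
        rw [← mul_assoc]
        exact mul_le_mul_of_nonneg_left hl2'.le (by positivity)
      linarith
    exact_mod_cast this
  have hrho : T ≤ rho k ^ n * |(M : ℝ)| := by
    have h1 : T ≤ rho k ^ n := by
      rw [← Real.log_le_log_iff hTpos (pow_pos (rho_pos k) n), Real.log_pow]
      have h2 := log_rho hk10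
      have h3 : Real.log T ≤ n * ((k : ℝ) / 10 * Real.log 2) := by
        rw [div_le_iff₀ hkl] at hn1
        linarith
      exact le_trans h3 (mul_le_mul_of_nonneg_left h2 (by positivity))
    exact le_trans h1 (le_mul_of_one_le_right (pow_pos (rho_pos k) n).le hMpos)
  have hlow := LL'_lower hk1 hk5 hT1 n M hjo hjg.2 hjl hrho
  have hsum := hL0 n hnL M hjg.2
  have hu' : uav (KK k hk1).k (psi k) ≤ ε / 64 * k := hu
  have hsum2 : ∑ l ∈ range n, ((KK k hk1).P^[l] (psi k)) M ≤ ε / 2 * Real.log T + 2 * (ε / 64) * k := by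
    have h1 : (n : ℝ) * (uav (KK k hk1).k (psi k) + ε / 64) ≤ n * (2 * (ε / 64) * k) := by
      apply mul_le_mul_of_nonneg_left _ (by positivity)
      have : ε / 64 ≤ ε / 64 * k := le_mul_of_one_le_right (by positivity) (by linarith)
      linarith
    have h2 : (n : ℝ) * (2 * (ε / 64) * k) ≤ (10 * Real.log T / (k * Real.log 2) + 1) * (2 * (ε / 64) * k) :=
      mul_le_mul_of_nonneg_right hn2.le (by positivity)
    have h3 : (10 * Real.log T / (k * Real.log 2) + 1) * (2 * (ε / 64) * k) =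
        (20 / Real.log 2) * (ε / 64) * Real.log T + 2 * (ε / 64) * k := by
      field_simp
      ring
    have h4 : 20 / Real.log 2 ≤ 32 := by
      rw [div_le_iff₀ (by linarith)]; linarith
    have h5 : (20 / Real.log 2) * (ε / 64) * Real.log T ≤ 32 * (ε / 64) * Real.log T := by
      apply mul_le_mul_of_nonneg_right _ hlogT0
      exact mul_le_mul_of_nonneg_right h4 (by positivity)
    linarith
  have hlow2 : (1 - ε / 2) * Real.log T - CC ≤ Real.log ((LL' k T n M).card : ℝ) := by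
    rw [hCC]; linarith
  have hcardpos : (0 : ℝ) < ((LL' k T n M).card : ℝ) := by
    exact_mod_cast card_pos.mpr (LL'_nonempty k T n M hjg.2)
  have hcard : Real.exp (-CC) * T ^ (1 - ε / 2) ≤ ((LL' k T n M).card : ℝ) := by
    rw [Real.le_log_iff_exp_le hcardpos] at hlow2
    refine le_trans (le_of_eq ?_) hlow2
    rw [Real.rpow_def_of_pos hTpos, ← Real.exp_add]
    congr 1
    ring
  set S := (LL' k T n M).image Prod.snd with hS
  have hsub : (LL' k T n M).card ≤ (n + 1) * S.card := by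
    rw [← card_range (n + 1), ← card_product]
    apply card_le_card
    intro p hp
    rw [mem_product, mem_range]
    exact ⟨by have := (LL'_path n M p hp).1; omega, mem_image_of_mem _ hp⟩
  have hsubR : ((LL' k T n M).card : ℝ) ≤ (n + 1) * S.card := by exact_mod_cast hsub
  have hn3 : (n : ℝ) + 1 ≤ 2 * (2 / ε + 1) * T ^ (ε / 2) := by
    have h1 : 10 * Real.log T / (k * Real.log 2) ≤ 2 * Real.log T := by
      rw [div_le_iff₀ hkl]
      have : 5 ≤ (k : ℝ) * Real.log 2 := by nlinarith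
      nlinarith
    have h2 : Real.log T ≤ T ^ (ε / 2) / (ε / 2) := Real.log_le_rpow_div hTpos.le (by positivity)
    have h3 : (1 : ℝ) ≤ T ^ (ε / 2) := Real.one_le_rpow hT1 (by positivity)
    have h4 : T ^ (ε / 2) / (ε / 2) = 2 / ε * T ^ (ε / 2) := by field_simp
    rw [h4] at h2
    linarith
  refine ⟨S, ?_, ?_⟩
  · intro N hN
    rw [hS, mem_image] at hN
    obtain ⟨p, hp, rfl⟩ := hN
    obtain ⟨-, w, w1, w2, w3, w4⟩ := LL'_path n M p hp
    obtain ⟨s1, s2, s3⟩ := LL'_sign hk5 n M hjo hjl p hp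
    have hb := LL'_bound hk1 hTk n M (by
      refine le_trans hTM ?_
      exact le_mul_of_one_le_left hTpos.le (one_le_pow₀ (by norm_num))) p hp
    have hc : cp ([j] ++ w) a := cp_append.mpr ⟨hjg.1, w3⟩
    refine ⟨?_, s1, fun h => s2 (hjp h), fun h => s3 (hjn h), [j] ++ w, List.cons_ne_nil _ _, ?_, hc, ?_⟩
    · refine lt_of_le_of_lt hb ?_
      rw [hxT, hD, pow_succ]
      have : (0 : ℝ) < 2 ^ (7 * k) * T := by positivity
      linarith
    · intro b hb'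
      rcases List.mem_append.mp hb' with h | h
      · rw [List.mem_singleton.mp h]; exact hj1
      · exact w2 b h
    · rw [nx_append hc, w4]
  · have hxr : x ^ (1 - ε) = D ^ (1 - ε) * T ^ (1 - ε) := by
      rw [hxT, Real.mul_rpow hDpos.le hTpos.le]
    rw [hxr]
    have hDr : 0 < D ^ (1 - ε) := Real.rpow_pos_of_pos hDpos _
    have e1 : Real.exp (-CC) / (2 * (2 / ε + 1)) / D ^ (1 - ε) * (D ^ (1 - ε) * T ^ (1 - ε)) =
        Real.exp (-CC) * T ^ (1 - ε) / (2 * (2 / ε + 1)) := by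
      field_simp
    rw [e1, div_le_iff₀ (by positivity)]
    have hTr : 0 < T ^ (ε / 2) := Real.rpow_pos_of_pos hTpos _
    have e2 : T ^ (1 - ε / 2) = T ^ (1 - ε) * T ^ (ε / 2) := by
      rw [← Real.rpow_add hTpos]; congr 1; ring
    have h1 : Real.exp (-CC) * T ^ (1 - ε) * T ^ (ε / 2) ≤ (S.card : ℝ) * (2 * (2 / ε + 1)) * T ^ (ε / 2) := by
      calc Real.exp (-CC) * T ^ (1 - ε) * T ^ (ε / 2) = Real.exp (-CC) * T ^ (1 - ε / 2) := by rw [e2]; ring
        _ ≤ ((LL' k T n M).card : ℝ) := hcard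
        _ ≤ (n + 1) * S.card := hsubR
        _ ≤ (2 * (2 / ε + 1) * T ^ (ε / 2)) * S.card := mul_le_mul_of_nonneg_right hn3 (Nat.cast_nonneg _)
        _ = _ := by ring
    exact le_of_mul_le_mul_right h1 hTr

end Pool.Agent.Helper89.Q1
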