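import Pool.Agent.Helper89.Q1.Tree

/-! Module (G), part 3: Gibbs inequality and the lower bound for the number of leaves. -/

namespace Pool.Agent.Helper89.Q1

open Finset Pool.Agent.Helper3.Q1

theorem gibbs {α : Type*} (A : Finset α) (κ N : α → ℝ) (h0 : ∀ w ∈ A, 0 ≤ κ w) (h1 : ∑ w ∈ A, κ w = 1)
    (hN : ∀ w ∈ A, 0 ≤ N w) (hp : ∀ w ∈ A, 0 < κ w → 0 < N w) :
    ∑ w ∈ A, κ w * (Real.log (N w) - Real.log (κ w)) ≤ Real.log (∑ w ∈ A, N w) := by
  have hS : 0 < ∑ w ∈ A, N w := by
    have : ∃ w ∈ A, 0 < κ w := by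
      by_contra hc
      push Not at hc
      have : ∑ w ∈ A, κ w ≤ 0 := sum_nonpos hc
      linarith
    obtain ⟨w, hw, hk⟩ := this
    exact lt_of_lt_of_le (hp w hw hk) (single_le_sum (f := N) hN hw)
  set S := ∑ w ∈ A, N w with hSdef
  have key : ∀ w ∈ A, κ w * (Real.log (N w) - Real.log (κ w)) - κ w * Real.log S ≤ N w / S - κ w := by
    intro w hw
    rcases (h0 w hw).eq_or_lt with h | h
    · rw [← h]
      have := div_nonneg (hN w hw) hS.le
      simpa using this
    · have hn := hp w hw h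
      have e : Real.log (N w) - Real.log (κ w) - Real.log S = Real.log (N w / (κ w * S)) := by
        rw [Real.log_div hn.ne' (by positivity), Real.log_mul h.ne' hS.ne']
        ring
      have h2 := Real.log_le_sub_one_of_pos (show 0 < N w / (κ w * S) by positivity)
      calc κ w * (Real.log (N w) - Real.log (κ w)) - κ w * Real.log S
          = κ w * (Real.log (N w) - Real.log (κ w) - Real.log S) := by ring
        _ = κ w * Real.log (N w / (κ w * S)) := by rw [e]
        _ ≤ κ w * (N w / (κ w * S) - 1) := mul_le_mul_of_nonneg_left h2 h.le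
        _ = _ := by field_simp
  have h3 := sum_le_sum key
  rw [sum_sub_distrib, sum_sub_distrib, ← sum_mul, h1, one_mul, ← sum_div, ← hSdef, div_self hS.ne'] at h3
  linarith

/-- negative part of `log Z` -/
noncomputable def psi (k : ℕ) (x : ℤ) : ℝ := max 0 (-Real.log (Zk k x))

theorem psi_nonneg (k : ℕ) (x : ℤ) : 0 ≤ psi k x := le_max_left _ _

theorem psi_per (k : ℕ) (x : ℤ) : psi k (x + 3 ^ (k + 1)) = psi k x := by unfold psi; rw [Zk_per]

theorem P_apply (k : ℕ) (hk : 1 ≤ k) (f : ℤ → ℝ) (x : ℤ) : (KK k hk).P f x = ∑ w ∈ Al k, kap k w x * f (nx w x) := rfl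

theorem P_iter_nonneg (k : ℕ) (hk : 1 ≤ k) (l : ℕ) : ∀ x : ℤ, 0 ≤ ((KK k hk).P^[l] (psi k)) x := by
  induction l with
  | zero => intro x; exact psi_nonneg k x
  | succ l ih =>
    intro x
    rw [Function.iterate_succ_apply', P_apply]
    exact sum_nonneg (fun w _ => mul_nonneg (kap_nonneg k w x) (ih _))

theorem LL'_nonempty (k : ℕ) (T : ℝ) : ∀ (n : ℕ) (M : ℤ), ¬ (3 : ℤ) ∣ M → (LL' k T n M).Nonempty := by
  classical
  intro n
  induction n with
  | zero => intro M _; rw [LL'_zero]; exact singleton_nonempty _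
  | succ n ih =>
    intro M hM
    by_cases h : T ≤ |(M : ℝ)|
    · rw [LL'_stop h]; exact singleton_nonempty _
    · obtain ⟨w, w1, w2, w3⟩ := exists_word k M hM
      have hw : w ∈ Al k := by rw [← w1]; exact mem_Al_of w2
      obtain ⟨p, hp⟩ := ih _ w3.2
      rw [LL'_succ h]
      exact ⟨_, mem_biUnion.mpr ⟨w, mem_filter.mpr ⟨hw, w3⟩, mem_image_of_mem _ hp⟩⟩

/-- growth factor -/
noncomputable def rho (k : ℕ) : ℝ := (2 : ℝ) ^ ((k : ℝ) / 5) / 2

theorem rho_pos (k : ℕ) : 0 < rho k := by unfold rho; positivity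

theorem log_rho {k : ℕ} (hk : 10 ≤ k) : (k : ℝ) / 10 * Real.log 2 ≤ Real.log (rho k) := by
  unfold rho
  rw [Real.log_div (by positivity) (by norm_num), Real.log_rpow (by norm_num)]
  have h1 : (10 : ℝ) ≤ k := by exact_mod_cast hk
  have h2 : 0 < Real.log 2 := Real.log_pos (by norm_num)
  nlinarith

theorem grow {k : ℕ} {w : List ℕ} (hw : w ∈ Al k) {x : ℤ} (h : cp w x) (hx : (2 : ℝ) ^ (k + 1) ≤ |(x : ℝ)|) :
    rho k * |(x : ℝ)| ≤ |(nx w x : ℝ)| := by
  obtain ⟨h1, h2, h3, h4⟩ := mem_Al.mp hw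
  have e := le_abs_nx h h2 (by rw [h1]; exact hx)
  rw [h1] at e
  have r := ratio_large h3
  have h5 : (0 : ℝ) < 3 ^ k := by positivity
  have h6 : 0 ≤ |(x : ℝ)| := abs_nonneg _
  have h7 : (3 : ℝ) ^ k * (rho k * |(x : ℝ)|) ≤ 3 ^ k * |(nx w x : ℝ)| := by
    refine le_trans ?_ e
    unfold rho
    calc (3 : ℝ) ^ k * ((2 : ℝ) ^ ((k : ℝ) / 5) / 2 * |(x : ℝ)|) = ((2 : ℝ) ^ ((k : ℝ) / 5) * 3 ^ k) * (|(x : ℝ)| / 2) := by ring
      _ ≤ 2 ^ w.sum * (|(x : ℝ)| / 2) := mul_le_mul_of_nonneg_right r (by positivity)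
  exact le_of_mul_le_mul_left h7 h5

theorem one_le_rho {k : ℕ} (hk : 5 ≤ k) : 1 ≤ rho k := by
  unfold rho
  rw [le_div_iff₀ (by norm_num), one_mul]
  calc (2 : ℝ) = 2 ^ (1 : ℝ) := by rw [Real.rpow_one]
    _ ≤ 2 ^ ((k : ℝ) / 5) := by
      apply Real.rpow_le_rpow_of_exponent_le (by norm_num)
      rw [le_div_iff₀ (by norm_num)]
      have : (5 : ℝ) ≤ k := by exact_mod_cast hk
      linarith

/-- lower bound for the number of leaves -/
theorem LL'_lower {k : ℕ} (hk1 : 1 ≤ k) (hk : 5 ≤ k) {T : ℝ} (hT : 1 ≤ T) : ∀ (n : ℕ) (M : ℤ), M % 2 = 1 → ¬ (3 : ℤ) ∣ M →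
    (2 : ℝ) ^ (k + 1) ≤ |(M : ℝ)| → T ≤ rho k ^ n * |(M : ℝ)| →
    Real.log T - Real.log (SS k M) - ∑ l ∈ range n, ((KK k hk1).P^[l] (psi k)) M ≤ Real.log ((LL' k T n M).card : ℝ) := by
  classical
  intro n
  induction n with
  | zero =>
    intro M _ _ _ hM
    rw [pow_zero, one_mul] at hM
    rw [LL'_zero, card_singleton, Nat.cast_one, Real.log_one, range_zero, sum_empty, sub_zero, sub_nonpos]
    apply Real.log_le_log (by linarith)
    refine le_trans hM ?_
    unfold SS
    linarith [show (0 : ℝ) < 2 ^ (k + 1) by positivity]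
  | succ n ih =>
    intro M hodd hunit hlarge hM
    have hsum : 0 ≤ ∑ l ∈ range (n + 1), ((KK k hk1).P^[l] (psi k)) M := sum_nonneg (fun l _ => P_iter_nonneg k hk1 l M)
    by_cases h : T ≤ |(M : ℝ)|
    · rw [LL'_stop h, card_singleton, Nat.cast_one, Real.log_one]
      have : Real.log T ≤ Real.log (SS k M) := by
        apply Real.log_le_log (by linarith)
        refine le_trans h ?_
        unfold SS
        linarith [show (0 : ℝ) < 2 ^ (k + 1) by positivity]
      linarith
    · rw [LL'_card h hodd]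
      set N : List ℕ → ℝ := fun w => if gd w M then ((LL' k T n (nx w M)).card : ℝ) else 0 with hNdef
      have hNsum : (∑ w ∈ Al k, (if gd w M then ((LL' k T n (nx w M)).card : ℝ) else 0)) = ∑ w ∈ Al k, N w := rfl
      have hNnn : ∀ w ∈ Al k, 0 ≤ N w := by
        intro w _
        rw [hNdef]
        show 0 ≤ (if gd w M then ((LL' k T n (nx w M)).card : ℝ) else 0)
        split_ifs
        · positivity
        · exact le_refl 0
      have hkg : ∀ w ∈ Al k, 0 < kap k w M → gd w M := by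
        intro w hw hpos
        by_contra hg
        rw [kap_eq hw, wt_of_not hg, zero_div] at hpos
        exact lt_irrefl _ hpos
      have hNp : ∀ w ∈ Al k, 0 < kap k w M → 0 < N w := by
        intro w hw hpos
        have hg := hkg w hw hpos
        rw [hNdef]
        show 0 < (if gd w M then ((LL' k T n (nx w M)).card : ℝ) else 0)
        rw [if_pos hg]
        exact_mod_cast card_pos.mpr (LL'_nonempty k T n _ hg.2)
      have hG := gibbs (Al k) (fun w => kap k w M) N (fun w _ => kap_nonneg k w M) (kap_sum hunit) hNnn hNp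
      refine le_trans ?_ (le_of_le_of_eq hG (by rw [← hNsum]))
      -- termwise lower bound
      have hterm : ∀ w ∈ Al k, kap k w M * (Real.log T - Real.log (SS k M) - psi k M
          - ∑ l ∈ range n, ((KK k hk1).P^[l] (psi k)) (nx w M)) ≤
          kap k w M * (Real.log (N w) - Real.log (kap k w M)) := by
        intro w hw
        rcases (kap_nonneg k w M).eq_or_lt with h0 | h0
        · rw [← h0]; simp
        · have hg := hkg w hw h0
          apply mul_le_mul_of_nonneg_left _ h0.le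
          obtain ⟨w1, w2, w3, w4⟩ := mem_Al.mp hw
          have hgr := grow hw hg.1 hlarge
          have h1r := one_le_rho hk
          have hlarge' : (2 : ℝ) ^ (k + 1) ≤ |(nx w M : ℝ)| := by
            refine le_trans hlarge (le_trans ?_ hgr)
            nlinarith [abs_nonneg (M : ℝ)]
          have hM' : T ≤ rho k ^ n * |(nx w M : ℝ)| := by
            refine le_trans hM ?_
            rw [pow_succ, mul_assoc]
            exact mul_le_mul_of_nonneg_left hgr (by have := rho_pos k; positivity)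
          have hI := ih (nx w M) (nx_odd hg.1 hodd w2) hg.2 hlarge' hM'
          have hNw : N w = ((LL' k T n (nx w M)).card : ℝ) := by
            rw [hNdef]
            show (if gd w M then ((LL' k T n (nx w M)).card : ℝ) else 0) = _
            rw [if_pos hg]
          rw [hNw]
          -- -log kap
          have hZ := Zk_pos (k := k) hunit
          have e1 : Real.log (kap k w M) = Real.log ((3 : ℝ) ^ k) - Real.log ((2 : ℝ) ^ w.sum) - Real.log (Zk k M) := by
            rw [kap_eq hw, wt_of_gd hg, w1, Real.log_div (by positivity) hZ.ne', Real.log_div (by positivity) (by positivity)]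
          have e2 : -psi k M ≤ Real.log (Zk k M) := by
            have := le_max_right 0 (-Real.log (Zk k M))
            unfold psi
            linarith
          have e3 : Real.log ((3 : ℝ) ^ k) + Real.log (SS k (nx w M)) ≤ Real.log ((2 : ℝ) ^ w.sum) + Real.log (SS k M) := by
            rw [← Real.log_mul (by positivity) (SS_pos k _).ne', ← Real.log_mul (by positivity) (SS_pos k _).ne']
            exact Real.log_le_log (mul_pos (by positivity) (SS_pos k _)) (SS_nx hk hw hg.1)
          linarith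
      refine le_trans ?_ (sum_le_sum hterm)
      have e4 : ∑ w ∈ Al k, kap k w M * (Real.log T - Real.log (SS k M) - psi k M
          - ∑ l ∈ range n, ((KK k hk1).P^[l] (psi k)) (nx w M)) =
          (Real.log T - Real.log (SS k M) - psi k M) - ∑ l ∈ range n, ((KK k hk1).P^[l + 1] (psi k)) M := by
        simp only [mul_sub]
        rw [sum_sub_distrib, sum_sub_distrib, sum_sub_distrib, ← sum_mul, ← sum_mul, ← sum_mul, kap_sum hunit]
        congr 1
        · ring
        · simp only [mul_sum]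
          rw [sum_comm]
          apply sum_congr rfl
          intro l _
          rw [Function.iterate_succ_apply', P_apply]
      rw [e4, sum_range_succ']
      simp only [Function.iterate_zero, id_eq]
      linarith

/-- all end points are bounded -/
theorem LL'_bound {k : ℕ} (hk : 1 ≤ k) {T : ℝ} (hT : (2 : ℝ) ^ k ≤ T) : ∀ (n : ℕ) (M : ℤ), |(M : ℝ)| ≤ 2 ^ (7 * k) * T →
    ∀ p ∈ LL' k T n M, |(p.2 : ℝ)| ≤ 2 ^ (7 * k) * T := by
  classical
  intro n
  induction n with
  | zero =>
    intro M hM p hp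
    rw [LL'_zero, mem_singleton] at hp
    subst hp
    exact hM
  | succ n ih =>
    intro M hM p hp
    by_cases h : T ≤ |(M : ℝ)|
    · rw [LL'_stop h, mem_singleton] at hp
      subst hp
      exact hM
    · rw [LL'_succ h, mem_biUnion] at hp
      obtain ⟨w, hw, hp⟩ := hp
      obtain ⟨q, hq, rfl⟩ := mem_image.mp hp
      obtain ⟨hwA, hg⟩ := mem_filter.mp hw
      refine ih _ ?_ q hq
      obtain ⟨w1, w2, w3, w4⟩ := mem_Al.mp hwA
      have e := abs_nx_le hg.1 w2
      rw [w1] at e
      push Not at h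
      have h3 : (3 : ℝ) ≤ 3 ^ k := by
        calc (3 : ℝ) = 3 ^ 1 := by norm_num
          _ ≤ 3 ^ k := pow_le_pow_right₀ (by norm_num) hk
      have h4 : (2 : ℝ) ^ w.sum ≤ 2 ^ (7 * k) := pow_le_pow_right₀ (by norm_num) w4
      have hTp : 0 < T := lt_of_lt_of_le (by positivity) hT
      have h5 : (3 : ℝ) ^ k * |(nx w M : ℝ)| ≤ 3 ^ k * (2 ^ (7 * k) * T) := by
        calc (3 : ℝ) ^ k * |(nx w M : ℝ)| ≤ 2 ^ w.sum * (|(M : ℝ)| + 2 ^ k) := e
          _ ≤ 2 ^ (7 * k) * (T + T) := mul_le_mul h4 (by linarith) (by positivity) (by positivity)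
          _ ≤ 3 * (2 ^ (7 * k) * T) := by nlinarith [show (0 : ℝ) < 2 ^ (7 * k) * T by positivity]
          _ ≤ 3 ^ k * (2 ^ (7 * k) * T) := mul_le_mul_of_nonneg_right h3 (by positivity)
      exact le_of_mul_le_mul_left h5 (by positivity)

/-- all end points have the sign of the root and are odd -/
theorem LL'_sign {k : ℕ} (hk : 5 ≤ k) {T : ℝ} : ∀ (n : ℕ) (M : ℤ), M % 2 = 1 → (2 : ℝ) ^ (k + 1) ≤ |(M : ℝ)| →
    ∀ p ∈ LL' k T n M, p.2 % 2 = 1 ∧ (0 < M → 0 < p.2) ∧ (M < 0 → p.2 < 0) := by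
  classical
  intro n
  induction n with
  | zero =>
    intro M hM _ p hp
    rw [LL'_zero, mem_singleton] at hp
    subst hp
    exact ⟨hM, id, id⟩
  | succ n ih =>
    intro M hM hlarge p hp
    by_cases h : T ≤ |(M : ℝ)|
    · rw [LL'_stop h, mem_singleton] at hp
      subst hp
      exact ⟨hM, id, id⟩
    · rw [LL'_succ h, mem_biUnion] at hp
      obtain ⟨w, hw, hp⟩ := hp
      obtain ⟨q, hq, rfl⟩ := mem_image.mp hp
      obtain ⟨hwA, hg⟩ := mem_filter.mp hw
      obtain ⟨w1, w2, w3, w4⟩ := mem_Al.mp hwA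
      have hgr := grow hwA hg.1 hlarge
      have h1r := one_le_rho hk
      have hlarge' : (2 : ℝ) ^ (k + 1) ≤ |(nx w M : ℝ)| := by
        refine le_trans hlarge (le_trans ?_ hgr)
        nlinarith [abs_nonneg (M : ℝ)]
      obtain ⟨s1, s2⟩ := nx_sign hg.1 w2 (by rw [w1]; exact hlarge)
      obtain ⟨i1, i2, i3⟩ := ih _ (nx_odd hg.1 hM w2) hlarge' q hq
      exact ⟨i1, fun hh => i2 (s1 hh), fun hh => i3 (s2 hh)⟩

end Pool.Agent.Helper89.Q1
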