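import Pool.Agent.Helper89.Q1.Count

/-! Module (G), part 5: translation to orbits; the frozen statement S18793 and the negative basins, from ERG and AN. -/

namespace Pool.Agent.Helper89.Q1

open Finset Pool.Agent.Helper3.Q1

theorem halve (C : ℕ → ℕ) (hC : C = fun m : ℕ => if m % 2 = 0 then m / 2 else 3 * m + 1) (a x : ℕ) : C^[a] (2 ^ a * x) = x := by
  induction a with
  | zero => simp
  | succ a ih =>
    rw [Function.iterate_succ_apply]
    have : C (2 ^ (a + 1) * x) = 2 ^ a * x := by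
      rw [hC]
      have e : 2 ^ (a + 1) * x = 2 * (2 ^ a * x) := by ring
      show (if 2 ^ (a + 1) * x % 2 = 0 then 2 ^ (a + 1) * x / 2 else 3 * (2 ^ (a + 1) * x) + 1) = 2 ^ a * x
      rw [e]
      have h1 : 2 * (2 ^ a * x) % 2 = 0 := by omega
      rw [if_pos h1]
      omega
    rw [this, ih]

/-- forward Collatz orbit of a predecessor -/
theorem collatz_reach (C : ℕ → ℕ) (hC : C = fun m : ℕ => if m % 2 = 0 then m / 2 else 3 * m + 1) :
    ∀ (w : List ℕ) (x : ℤ), 0 < x → cp w x → (∀ b ∈ w, 1 ≤ b) → ∃ k : ℕ, C^[k] (nx w x).toNat = x.toNat := by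
  intro w
  induction w with
  | nil => intro x _ _ _; exact ⟨0, by rw [nx_nil]; rfl⟩
  | cons b w ih =>
    intro x hx hc h1
    have hb : 1 ≤ b := h1 b (by simp)
    have hc' : cp ([b] ++ w) x := hc
    obtain ⟨c1, c2⟩ := cp_append.mp hc'
    have e := nx_mul c1
    simp only [List.length_singleton, List.sum_singleton, cw, List.sum_nil, pow_one, pow_zero] at e
    obtain ⟨b', rfl⟩ := Nat.exists_eq_add_of_le hb
    have hpow : (2 : ℤ) ^ (1 + b') = 2 * 2 ^ b' := by rw [pow_add]; ring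
    have hpos : 0 < nx [1 + b'] x := by
      have : (1 : ℤ) ≤ 2 ^ b' * x := by
        have := pow_pos (by norm_num : (0 : ℤ) < 2) b'
        nlinarith
      rw [hpow, mul_assoc] at e
      omega
    obtain ⟨k, hk⟩ := ih (nx [1 + b'] x) hpos c2 (fun c hc => h1 c (by simp [hc]))
    have hnx : nx ((1 + b') :: w) x = nx w (nx [1 + b'] x) := nx_append hc'
    refine ⟨(1 + b') + (1 + k), ?_⟩
    rw [hnx, Function.iterate_add_apply C (1 + b') (1 + k), Function.iterate_add_apply C 1 k, hk, Function.iterate_one]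
    have hstep : C (nx [1 + b'] x).toNat = 2 ^ (1 + b') * x.toNat := by
      rw [hC]
      obtain ⟨y, hy⟩ := Int.eq_ofNat_of_zero_le hpos.le
      obtain ⟨z, hz⟩ := Int.eq_ofNat_of_zero_le hx.le
      rw [hy, hz] at e ⊢
      rw [Int.toNat_natCast, Int.toNat_natCast]
      have e' : 3 * y + 1 = 2 ^ (1 + b') * z := by
        have : (3 : ℤ) * y + 1 = 2 ^ (1 + b') * z := by linarith
        exact_mod_cast this
      have hodd : ¬ y % 2 = 0 := by
        have e2 : 2 ^ (1 + b') * z = 2 * (2 ^ b' * z) := by rw [pow_add]; ring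
        rw [e2] at e'
        omega
      show (if y % 2 = 0 then y / 2 else 3 * y + 1) = _
      rw [if_neg hodd, e']
    rw [hstep, halve C hC]

/-- forward Syracuse orbit of a predecessor -/
theorem syr_reach : ∀ (w : List ℕ) (x : ℤ), x % 2 = 1 → cp w x → (∀ b ∈ w, 1 ≤ b) →
    (fun n : ℤ => (3 * n + 1) / 2 ^ padicValInt 2 (3 * n + 1))^[w.length] (nx w x) = x := by
  intro w
  induction w with
  | nil => intro x _ _ _; rw [nx_nil]; rfl
  | cons b w ih =>
    intro x hx hc h1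
    have hb : 1 ≤ b := h1 b (by simp)
    have hc' : cp ([b] ++ w) x := hc
    obtain ⟨c1, c2⟩ := cp_append.mp hc'
    have e := nx_mul c1
    have ho := nx_odd c1 hx (fun c hc => by rw [List.mem_singleton.mp hc]; exact hb)
    simp only [List.length_singleton, List.sum_singleton, cw, List.sum_nil, pow_one, pow_zero] at e
    have hnx : nx (b :: w) x = nx w (nx [b] x) := nx_append hc'
    rw [hnx, List.length_cons, Function.iterate_succ_apply', ih _ ho c2 (fun c hc => h1 c (by simp [hc]))]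
    show (3 * nx [b] x + 1) / 2 ^ padicValInt 2 (3 * nx [b] x + 1) = x
    have e1 : 3 * nx [b] x + 1 = 2 ^ b * x := by linarith
    have hx0 : x ≠ 0 := by intro h; subst h; norm_num at hx
    have hv : padicValInt 2 (2 ^ b * x) = b := by
      rw [padicValInt.mul (by positivity) hx0]
      have h2 : padicValInt 2 ((2 : ℤ) ^ b) = b := by
        have : ((2 : ℤ) ^ b) = ((2 ^ b : ℕ) : ℤ) := by push_cast; rfl
        rw [this, padicValInt.of_nat, padicValNat.prime_pow]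
      have h3 : padicValInt 2 x = 0 := by
        apply padicValInt.eq_zero_of_not_dvd
        intro h
        omega
      rw [h2, h3, add_zero]
    rw [e1, hv]
    exact Int.mul_ediv_cancel_left _ (by positivity)

/-- frozen statement S18793 from ERG and AN -/
theorem S18793_of (hERG : ERG) (hAN : AN) :
    ∀ ε : ℝ, 0 < ε → ∃ c : ℝ, 0 < c ∧ ∃ x₀ : ℝ, ∀ x : ℝ, x₀ ≤ x →
      c * x ^ (1 - ε) <
        (Nat.card {n : ℕ // 1 ≤ n ∧ (n : ℝ) < x ∧
          ∃ k : ℕ, (fun m : ℕ => if m % 2 = 0 then m / 2 else 3 * m + 1)^[k] n = 1} : ℝ) := by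
  classical
  intro ε hε
  obtain ⟨c, hc, x0, H⟩ := gcount hERG hAN (a := 1) (by norm_num) hε
  refine ⟨c / 2, by positivity, max x0 1, fun x hx => ?_⟩
  obtain ⟨S, h1, h2⟩ := H x (le_trans (le_max_left _ _) hx)
  have hx1 : 1 ≤ x := le_trans (le_max_right _ _) hx
  set A : Set ℕ := {n : ℕ | 1 ≤ n ∧ (n : ℝ) < x ∧
          ∃ k : ℕ, (fun m : ℕ => if m % 2 = 0 then m / 2 else 3 * m + 1)^[k] n = 1} with hA
  have hfin : A.Finite := by
    apply Set.Finite.subset (Set.finite_Iio ⌈x⌉₊)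
    rintro n ⟨-, h, -⟩
    exact Nat.lt_ceil.mpr h
  have hsub : ((S.image Int.toNat : Finset ℕ) : Set ℕ) ⊆ A := by
    intro n hn
    rw [Finset.mem_coe, mem_image] at hn
    obtain ⟨N, hN, rfl⟩ := hn
    obtain ⟨a1, a2, a3, a4, w, w1, w2, w3, w4⟩ := h1 N hN
    have hpos : 0 < N := a3 one_pos
    refine ⟨by omega, ?_, ?_⟩
    · have : ((N.toNat : ℕ) : ℝ) = (N : ℝ) := by
        have : ((N.toNat : ℕ) : ℤ) = N := Int.toNat_of_nonneg hpos.le
        exact_mod_cast this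
      rw [this]
      exact lt_of_le_of_lt (le_abs_self _) a1
    · obtain ⟨k, hk⟩ := collatz_reach _ rfl w 1 one_pos w3 w2
      rw [w4] at hk
      exact ⟨k, hk⟩
  have hcard : S.card ≤ A.ncard := by
    rw [← card_image_of_injOn (f := Int.toNat) (s := S), ← Set.ncard_coe_finset]
    · exact Set.ncard_le_ncard hsub hfin
    · intro N hN N' hN' h
      obtain ⟨-, -, a3, -⟩ := h1 N hN
      obtain ⟨-, -, b3, -⟩ := h1 N' hN'
      have := a3 one_pos
      have := b3 one_pos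
      omega
  have h3 : (S.card : ℝ) ≤ (Nat.card {n : ℕ // 1 ≤ n ∧ (n : ℝ) < x ∧
          ∃ k : ℕ, (fun m : ℕ => if m % 2 = 0 then m / 2 else 3 * m + 1)^[k] n = 1} : ℝ) := by
    have : Nat.card {n : ℕ // 1 ≤ n ∧ (n : ℝ) < x ∧
          ∃ k : ℕ, (fun m : ℕ => if m % 2 = 0 then m / 2 else 3 * m + 1)^[k] n = 1} = A.ncard := rfl
    rw [this]
    exact_mod_cast hcard
  refine lt_of_lt_of_le ?_ h3
  refine lt_of_lt_of_le ?_ h2
  have : 0 < x ^ (1 - ε) := Real.rpow_pos_of_pos (by linarith) _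
  nlinarith

/-- negative basins, from ERG and AN -/
theorem negbasin_of (hERG : ERG) (hAN : AN) (a : ℤ) (ha : a < 0) (hodd : Odd a) (h3 : ¬ (3 : ℤ) ∣ a) :
    ∀ ε : ℝ, 0 < ε → ∃ c : ℝ, 0 < c ∧ ∃ x₀ : ℝ, ∀ x : ℝ, x₀ ≤ x →
      c * x ^ (1 - ε) < (Nat.card {N : ℤ // N < 0 ∧ Odd N ∧ -x ≤ (N : ℝ) ∧
        ∃ k : ℕ, (fun n : ℤ => (3 * n + 1) / 2 ^ padicValInt 2 (3 * n + 1))^[k] N = a} : ℝ) := by
  classical
  intro ε hε
  obtain ⟨c, hc, x0, H⟩ := gcount hERG hAN (a := a) h3 hε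
  refine ⟨c / 2, by positivity, max x0 1, fun x hx => ?_⟩
  obtain ⟨S, h1, h2⟩ := H x (le_trans (le_max_left _ _) hx)
  have hx1 : 1 ≤ x := le_trans (le_max_right _ _) hx
  set A : Set ℤ := {N : ℤ | N < 0 ∧ Odd N ∧ -x ≤ (N : ℝ) ∧
        ∃ k : ℕ, (fun n : ℤ => (3 * n + 1) / 2 ^ padicValInt 2 (3 * n + 1))^[k] N = a} with hA
  have hfin : A.Finite := by
    apply Set.Finite.subset (Set.finite_Icc ⌈-x⌉ 0)
    rintro n ⟨h1, _, h3, _⟩
    exact ⟨Int.ceil_le.mpr h3, h1.le⟩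
  have hsub : (S : Set ℤ) ⊆ A := by
    intro N hN
    obtain ⟨a1, a2, a3, a4, w, w1, w2, w3, w4⟩ := h1 N hN
    refine ⟨a4 ha, Int.odd_iff.mpr a2, ?_, w.length, ?_⟩
    · have := neg_abs_le (N : ℝ)
      linarith
    · rw [← w4]
      exact syr_reach w a (Int.odd_iff.mp hodd) w3 w2
  have hcard : S.card ≤ A.ncard := by
    rw [← Set.ncard_coe_finset]
    exact Set.ncard_le_ncard hsub hfin
  have h4 : (S.card : ℝ) ≤ (Nat.card {N : ℤ // N < 0 ∧ Odd N ∧ -x ≤ (N : ℝ) ∧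
        ∃ k : ℕ, (fun n : ℤ => (3 * n + 1) / 2 ^ padicValInt 2 (3 * n + 1))^[k] N = a} : ℝ) := by
    have : Nat.card {N : ℤ // N < 0 ∧ Odd N ∧ -x ≤ (N : ℝ) ∧
        ∃ k : ℕ, (fun n : ℤ => (3 * n + 1) / 2 ^ padicValInt 2 (3 * n + 1))^[k] N = a} = A.ncard := rfl
    rw [this]
    exact_mod_cast hcard
  refine lt_of_lt_of_le ?_ h4
  refine lt_of_lt_of_le ?_ h2
  have : 0 < x ^ (1 - ε) := Real.rpow_pos_of_pos (by linarith) _
  nlinarith

end Pool.Agent.Helper89.Q1
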