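import Pool.Agent.Helper89.Q1.Kern

/-! Module (G), part 2: the tree of predecessors, backward determinism, the Gibbs lower bound. -/

namespace Pool.Agent.Helper89.Q1

open Finset Pool.Agent.Helper3.Q1

theorem pow_two_mul_odd {a b : ℕ} {p q : ℤ} (hp : p % 2 = 1) (hq : q % 2 = 1) (h : 2 ^ a * p = 2 ^ b * q) : a = b ∧ p = q := by
  rcases lt_trichotomy a b with hab | hab | hab
  · exfalso
    obtain ⟨e, rfl⟩ := Nat.exists_eq_add_of_lt hab
    have h2 : p = 2 * (2 ^ e * q) := by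
      have h3 : (2 : ℤ) ^ a * p = 2 ^ a * (2 * (2 ^ e * q)) := by rw [h]; ring
      exact mul_left_cancel₀ (by positivity) h3
    omega
  · subst hab
    exact ⟨rfl, mul_left_cancel₀ (by positivity) h⟩
  · exfalso
    obtain ⟨e, rfl⟩ := Nat.exists_eq_add_of_lt hab
    have h2 : q = 2 * (2 ^ e * p) := by
      have h3 : (2 : ℤ) ^ b * q = 2 ^ b * (2 * (2 ^ e * p)) := by rw [← h]; ring
      exact mul_left_cancel₀ (by positivity) h3
    omega

/-- the end point and the length determine the word and the starting point -/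
theorem bdet : ∀ (n : ℕ) (v w : List ℕ) (x y : ℤ), v.length = n → w.length = n → (∀ a ∈ v, 1 ≤ a) → (∀ a ∈ w, 1 ≤ a) →
    x % 2 = 1 → y % 2 = 1 → cp v x → cp w y → nx v x = nx w y → v = w ∧ x = y := by
  intro n
  induction n with
  | zero =>
    intro v w x y hv hw _ _ _ _ _ _ h
    rw [List.length_eq_zero_iff] at hv hw
    subst hv; subst hw
    rw [nx_nil, nx_nil] at h
    exact ⟨rfl, h⟩
  | succ n ih =>
    intro v w x y hv hw hv1 hw1 hx hy cv' cw' h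
    have hvne : v ≠ [] := by intro h; subst h; simp at hv
    have hwne : w ≠ [] := by intro h; subst h; simp at hw
    obtain ⟨v', a, rfl⟩ := List.eq_nil_or_concat v |>.resolve_left hvne
    obtain ⟨w', b, rfl⟩ := List.eq_nil_or_concat w |>.resolve_left hwne
    simp only [List.concat_eq_append] at *
    have hv' : v'.length = n := by simpa using hv
    have hw' : w'.length = n := by simpa using hw
    rw [nx_append cv', nx_append cw'] at h
    obtain ⟨c1, c2⟩ := cp_append.mp cv'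
    obtain ⟨d1, d2⟩ := cp_append.mp cw'
    have op := nx_odd c1 hx (fun c hc => hv1 c (by simp [hc]))
    have oq := nx_odd d1 hy (fun c hc => hw1 c (by simp [hc]))
    have e1 := nx_mul c2
    have e2 := nx_mul d2
    simp only [List.length_singleton, List.sum_singleton, cw, List.sum_nil, pow_one, pow_zero] at e1 e2
    rw [h] at e1
    have e3 : 2 ^ a * nx v' x = 2 ^ b * nx w' y := by linarith
    obtain ⟨hab, hpq⟩ := pow_two_mul_odd op oq e3
    obtain ⟨h1, h2⟩ := ih v' w' x y hv' hw' (fun c hc => hv1 c (by simp [hc])) (fun c hc => hw1 c (by simp [hc])) hx hy c1 d1 hpq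
    exact ⟨by rw [h1, hab], h2⟩

/-- sizes -/
theorem ratio_large {k d : ℕ} (h : 9 * k ≤ 5 * d) : (2 : ℝ) ^ ((k : ℝ) / 5) * 3 ^ k ≤ 2 ^ d := by
  have h1 : ((2 : ℝ) ^ ((k : ℝ) / 5) * 3 ^ k) ^ 5 ≤ ((2 : ℝ) ^ d) ^ 5 := by
    rw [mul_pow, ← Real.rpow_natCast (((2 : ℝ) ^ ((k : ℝ) / 5))) 5, ← Real.rpow_mul (by norm_num)]
    rw [show (k : ℝ) / 5 * ((5 : ℕ) : ℝ) = (k : ℝ) by push_cast; ring, Real.rpow_natCast, ← pow_mul, ← pow_mul]
    calc (2 : ℝ) ^ k * 3 ^ (k * 5) = (2 * 3 ^ 5) ^ k := by rw [mul_pow, ← pow_mul, mul_comm k 5]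
      _ ≤ (2 ^ 9) ^ k := pow_le_pow_left₀ (by norm_num) (by norm_num) k
      _ = 2 ^ (9 * k) := by rw [← pow_mul]
      _ ≤ 2 ^ (d * 5) := pow_le_pow_right₀ (by norm_num) (by omega)
  exact le_of_pow_le_pow_left₀ (by norm_num) (by positivity) h1

theorem ratio_ge_two {k d : ℕ} (hk : 5 ≤ k) (h : 9 * k ≤ 5 * d) : (2 : ℝ) * 3 ^ k ≤ 2 ^ d := by
  refine le_trans ?_ (ratio_large h)
  apply mul_le_mul_of_nonneg_right _ (by positivity)
  calc (2 : ℝ) = 2 ^ (1 : ℝ) := by rw [Real.rpow_one]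
    _ ≤ 2 ^ ((k : ℝ) / 5) := by
      apply Real.rpow_le_rpow_of_exponent_le (by norm_num)
      rw [le_div_iff₀ (by norm_num)]
      have : (5 : ℝ) ≤ k := by exact_mod_cast hk
      linarith

theorem nx_real {w : List ℕ} {x : ℤ} (h : cp w x) : (3 : ℝ) ^ w.length * (nx w x : ℝ) = 2 ^ w.sum * (x : ℝ) - (cw w : ℝ) := by
  have := nx_mul h
  exact_mod_cast this

theorem cw_real_le {w : List ℕ} (h1 : ∀ a ∈ w, 1 ≤ a) : (cw w : ℝ) ≤ 2 ^ w.sum * 2 ^ w.length := by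
  have h := cw_le w h1
  have h2 : (3 : ℤ) ^ w.length ≤ 2 ^ w.length * 2 ^ w.length := by
    rw [← mul_pow]; exact pow_le_pow_left₀ (by norm_num) (by norm_num) _
  have h3 : (0 : ℤ) < 2 ^ w.sum := by positivity
  have h4 : (0 : ℤ) < 2 ^ w.length := by positivity
  have h5 : 2 ^ w.length * cw w ≤ 2 ^ w.length * (2 ^ w.sum * 2 ^ w.length) := by nlinarith
  have h6 := le_of_mul_le_mul_left h5 h4
  exact_mod_cast h6

/-- upper bound for the size of a predecessor -/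
theorem abs_nx_le {w : List ℕ} {x : ℤ} (h : cp w x) (h1 : ∀ a ∈ w, 1 ≤ a) :
    (3 : ℝ) ^ w.length * |(nx w x : ℝ)| ≤ 2 ^ w.sum * (|(x : ℝ)| + 2 ^ w.length) := by
  have e := nx_real h
  have c0 : (0 : ℝ) ≤ (cw w : ℝ) := by exact_mod_cast cw_nonneg w
  have c1 := cw_real_le h1
  have e2 : (3 : ℝ) ^ w.length * |(nx w x : ℝ)| = |2 ^ w.sum * (x : ℝ) - (cw w : ℝ)| := by
    rw [← e, abs_mul, abs_of_pos (by positivity : (0 : ℝ) < 3 ^ w.length)]
  rw [e2]
  calc |2 ^ w.sum * (x : ℝ) - (cw w : ℝ)| ≤ |2 ^ w.sum * (x : ℝ)| + |(cw w : ℝ)| := abs_sub _ _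
    _ = 2 ^ w.sum * |(x : ℝ)| + (cw w : ℝ) := by
      rw [abs_mul, abs_of_pos (by positivity : (0 : ℝ) < 2 ^ w.sum), abs_of_nonneg c0]
    _ ≤ _ := by rw [mul_add]; linarith

/-- lower bound for the size of a predecessor -/
theorem le_abs_nx {w : List ℕ} {x : ℤ} (h : cp w x) (h1 : ∀ a ∈ w, 1 ≤ a) (hx : (2 : ℝ) ^ (w.length + 1) ≤ |(x : ℝ)|) :
    2 ^ w.sum * (|(x : ℝ)| / 2) ≤ (3 : ℝ) ^ w.length * |(nx w x : ℝ)| := by
  have e := nx_real h
  have c0 : (0 : ℝ) ≤ (cw w : ℝ) := by exact_mod_cast cw_nonneg w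
  have c1 := cw_real_le h1
  have e2 : (3 : ℝ) ^ w.length * |(nx w x : ℝ)| = |2 ^ w.sum * (x : ℝ) - (cw w : ℝ)| := by
    rw [← e, abs_mul, abs_of_pos (by positivity : (0 : ℝ) < 3 ^ w.length)]
  rw [e2]
  have h3 : |2 ^ w.sum * (x : ℝ)| - |(cw w : ℝ)| ≤ |2 ^ w.sum * (x : ℝ) - (cw w : ℝ)| := abs_sub_abs_le_abs_sub _ _
  rw [abs_mul, abs_of_pos (by positivity : (0 : ℝ) < 2 ^ w.sum), abs_of_nonneg c0] at h3
  refine le_trans ?_ h3
  have h4 : (2 : ℝ) ^ w.sum * 2 ^ w.length ≤ 2 ^ w.sum * (|(x : ℝ)| / 2) := by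
    apply mul_le_mul_of_nonneg_left _ (by positivity)
    rw [pow_succ] at hx
    linarith
  have h5 : (2 : ℝ) ^ w.sum * |(x : ℝ)| = 2 ^ w.sum * (|(x : ℝ)| / 2) + 2 ^ w.sum * (|(x : ℝ)| / 2) := by ring
  linarith

/-- the sign is preserved -/
theorem nx_sign {w : List ℕ} {x : ℤ} (h : cp w x) (h1 : ∀ a ∈ w, 1 ≤ a) (hx : (2 : ℝ) ^ (w.length + 1) ≤ |(x : ℝ)|) :
    (0 < x → 0 < nx w x) ∧ (x < 0 → nx w x < 0) := by
  have e := nx_real h
  have c0 : (0 : ℝ) ≤ (cw w : ℝ) := by exact_mod_cast cw_nonneg w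
  have c1 := cw_real_le h1
  have hs : (0 : ℝ) < 2 ^ w.sum := by positivity
  have hl : (0 : ℝ) < 2 ^ w.length := by positivity
  have h3 : (0 : ℝ) < 3 ^ w.length := by positivity
  rw [pow_succ] at hx
  constructor
  · intro hp
    have hp' : (0 : ℝ) < x := by exact_mod_cast hp
    rw [abs_of_pos hp'] at hx
    have h4 : (0 : ℝ) < 3 ^ w.length * (nx w x : ℝ) := by
      rw [e]
      nlinarith
    have h5 : (0 : ℝ) < (nx w x : ℝ) := by
      by_contra hn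
      push Not at hn
      nlinarith
    exact_mod_cast h5
  · intro hn
    have hn' : (x : ℝ) < 0 := by exact_mod_cast hn
    have h4 : (3 : ℝ) ^ w.length * (nx w x : ℝ) < 0 := by
      rw [e]
      nlinarith
    have h5 : (nx w x : ℝ) < 0 := by
      by_contra hp
      push Not at hp
      nlinarith
    exact_mod_cast h5

/-- size function -/
noncomputable def SS (k : ℕ) (x : ℤ) : ℝ := |(x : ℝ)| + 2 ^ (k + 1)

theorem SS_pos (k : ℕ) (x : ℤ) : 0 < SS k x := by unfold SS; positivity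

theorem SS_nx {k : ℕ} (hk : 5 ≤ k) {w : List ℕ} (hw : w ∈ Al k) {x : ℤ} (h : cp w x) :
    (3 : ℝ) ^ k * SS k (nx w x) ≤ 2 ^ w.sum * SS k x := by
  obtain ⟨h1, h2, h3, h4⟩ := mem_Al.mp hw
  have e := abs_nx_le h h2
  rw [h1] at e
  have r := ratio_ge_two hk h3
  unfold SS
  have hk2 : (0 : ℝ) < 2 ^ k := by positivity
  have h5 : (2 : ℝ) ^ (k + 1) = 2 * 2 ^ k := by rw [pow_succ]; ring
  rw [h5]
  nlinarith

/-- the tree of predecessors, stopped when the absolute value reaches `T`; pairs (number of blocks, end point) -/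
noncomputable def LL' (k : ℕ) (T : ℝ) : ℕ → ℤ → Finset (ℕ × ℤ)
  | 0, M => {(0, M)}
  | n + 1, M => by
    classical exact if T ≤ |(M : ℝ)| then {(0, M)}
      else ((Al k).filter (fun w => gd w M)).biUnion (fun w => (LL' k T n (nx w M)).image (fun p => (p.1 + 1, p.2)))

theorem LL'_zero (k : ℕ) (T : ℝ) (M : ℤ) : LL' k T 0 M = {(0, M)} := rfl

theorem LL'_stop {k : ℕ} {T : ℝ} {n : ℕ} {M : ℤ} (h : T ≤ |(M : ℝ)|) : LL' k T (n + 1) M = {(0, M)} := by
  simp only [LL']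
  rw [if_pos h]

open Classical in
theorem LL'_succ {k : ℕ} {T : ℝ} {n : ℕ} {M : ℤ} (h : ¬ T ≤ |(M : ℝ)|) : LL' k T (n + 1) M =
    ((Al k).filter (fun w => gd w M)).biUnion (fun w => (LL' k T n (nx w M)).image (fun p => (p.1 + 1, p.2))) := by
  simp only [LL']
  rw [if_neg h]

theorem LL'_path {k : ℕ} {T : ℝ} : ∀ (n : ℕ) (M : ℤ) (p : ℕ × ℤ), p ∈ LL' k T n M →
    p.1 ≤ n ∧ ∃ w : List ℕ, w.length = k * p.1 ∧ (∀ a ∈ w, 1 ≤ a) ∧ cp w M ∧ nx w M = p.2 := by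
  classical
  intro n
  induction n with
  | zero =>
    intro M p hp
    rw [LL'_zero, mem_singleton] at hp
    subst hp
    exact ⟨le_refl _, [], by simp, by simp, cp_nil M, nx_nil M⟩
  | succ n ih =>
    intro M p hp
    by_cases h : T ≤ |(M : ℝ)|
    · rw [LL'_stop h, mem_singleton] at hp
      subst hp
      exact ⟨Nat.zero_le _, [], by simp, by simp, cp_nil M, nx_nil M⟩
    · rw [LL'_succ h, mem_biUnion] at hp
      obtain ⟨w, hw, hp⟩ := hp
      obtain ⟨q, hq, rfl⟩ := mem_image.mp hp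
      obtain ⟨hwA, hg⟩ := mem_filter.mp hw
      obtain ⟨h1, v, h2, h3, h4, h5⟩ := ih _ _ hq
      have hc : cp (w ++ v) M := cp_append.mpr ⟨hg.1, h4⟩
      refine ⟨by simpa using h1, w ++ v, ?_, ?_, hc, ?_⟩
      · rw [List.length_append, (mem_Al.mp hwA).1, h2]; ring
      · intro a ha
        rcases List.mem_append.mp ha with ha | ha
        · exact (mem_Al.mp hwA).2.1 a ha
        · exact h3 a ha
      · rw [nx_append hc, h5]

theorem LL'_card {k : ℕ} {T : ℝ} {n : ℕ} {M : ℤ} (h : ¬ T ≤ |(M : ℝ)|) (hM : M % 2 = 1) :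
    ((LL' k T (n + 1) M).card : ℝ) = ∑ w ∈ Al k, (by classical exact if gd w M then ((LL' k T n (nx w M)).card : ℝ) else 0) := by
  classical
  rw [LL'_succ h, card_biUnion, Nat.cast_sum, sum_filter]
  · apply sum_congr rfl
    intro w hw
    split_ifs
    · rw [card_image_of_injective]
      intro p q hpq
      simp only [Prod.mk.injEq] at hpq
      exact Prod.ext (by omega) hpq.2
    · rfl
  · intro v hv w hw hvw
    rw [Function.onFun, disjoint_left]
    intro p hp1 hp2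
    obtain ⟨q1, hq1, e1⟩ := mem_image.mp hp1
    obtain ⟨q2, hq2, e2⟩ := mem_image.mp hp2
    have e3 : q1 = q2 := by
      rw [← e2] at e1
      simp only [Prod.mk.injEq] at e1
      exact Prod.ext (by omega) e1.2
    subst e3
    obtain ⟨hvA, hgv⟩ := mem_filter.mp hv
    obtain ⟨hwA, hgw⟩ := mem_filter.mp hw
    obtain ⟨-, a, a1, a2, a3, a4⟩ := LL'_path _ _ _ hq1
    obtain ⟨-, b, b1, b2, b3, b4⟩ := LL'_path _ _ _ hq2
    obtain ⟨-, h6⟩ := bdet (k * q1.1) a b (nx v M) (nx w M) a1 b1 a2 b2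
      (nx_odd hgv.1 hM (mem_Al.mp hvA).2.1) (nx_odd hgw.1 hM (mem_Al.mp hwA).2.1) a3 b3 (by rw [a4, b4])
    obtain ⟨h7, -⟩ := bdet k v w M M (mem_Al.mp hvA).1 (mem_Al.mp hwA).1 (mem_Al.mp hvA).2.1 (mem_Al.mp hwA).2.1 hM hM
      hgv.1 hgw.1 h6
    exact hvw h7

end Pool.Agent.Helper89.Q1
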