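import Pool.Agent.Helper89.Q1.Orbit

/-! Module (G), part 6: the counting theorem with constants that do not depend on the target. -/

namespace Pool.Agent.Helper89.Q1

open Finset Pool.Agent.Helper3.Q1

theorem exists_start_unif (R : ℝ) : ∃ J : ℕ, ∀ a : ℤ, ¬ (3 : ℤ) ∣ a →
    ∃ j : ℕ, j ≤ J ∧ 1 ≤ j ∧ gd [j] a ∧ R ≤ |(nx [j] a : ℝ)| ∧ nx [j] a % 2 = 1 ∧ (0 < a → 0 < nx [j] a) ∧
      (a < 0 → nx [j] a < 0) := by
  obtain ⟨i, hi⟩ : ∃ i : ℕ, 3 * |R| + 1 ≤ (2 : ℝ) ^ i := by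
    obtain ⟨i, hi⟩ := pow_unbounded_of_one_lt (3 * |R| + 1) (by norm_num : (1 : ℝ) < 2)
    exact ⟨i, hi.le⟩
  refine ⟨6 + 6 * i, ?_⟩
  intro a ha
  have hj0 : ∃ j0 : ℕ, 1 ≤ j0 ∧ j0 ≤ 6 ∧ (2 ^ j0 * a) % 9 = 4 := by
    have h : a % 9 = 1 ∨ a % 9 = 2 ∨ a % 9 = 4 ∨ a % 9 = 5 ∨ a % 9 = 7 ∨ a % 9 = 8 := by omega
    rcases h with h | h | h | h | h | h
    · exact ⟨2, by norm_num, by norm_num, by norm_num; omega⟩
    · exact ⟨1, by norm_num, by norm_num, by norm_num; omega⟩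
    · exact ⟨6, by norm_num, by norm_num, by norm_num; omega⟩
    · exact ⟨3, by norm_num, by norm_num, by norm_num; omega⟩
    · exact ⟨4, by norm_num, by norm_num, by norm_num; omega⟩
    · exact ⟨5, by norm_num, by norm_num, by norm_num; omega⟩
  obtain ⟨j0, hj1, hj6, hj⟩ := hj0
  have h64 : ∀ i : ℕ, (64 : ℤ) ^ i % 9 = 1 := by
    intro i
    induction i with
    | zero => norm_num
    | succ i ih => rw [pow_succ, Int.mul_emod, ih]; norm_num
  have hmod : (2 ^ (j0 + 6 * i) * a) % 9 = 4 := by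
    have : (2 : ℤ) ^ (j0 + 6 * i) * a = 64 ^ i * (2 ^ j0 * a) := by
      rw [pow_add, pow_mul]; norm_num; ring
    rw [this, Int.mul_emod, h64, hj]; norm_num
  have hg : gd [j0 + 6 * i] a := gd_single (Or.inl hmod)
  have e := nx_mul hg.1
  simp only [List.length_singleton, List.sum_singleton, cw, List.sum_nil, pow_one, pow_zero] at e
  set y := nx [j0 + 6 * i] a with hy
  have hpow : (2 : ℤ) ^ (j0 + 6 * i) = 2 * 2 ^ (j0 + 6 * i - 1) := by
    rw [← pow_succ']; congr 1; omega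
  have ha0 : a ≠ 0 := by intro h; exact ha (h ▸ dvd_zero _)
  refine ⟨j0 + 6 * i, by omega, by omega, hg, ?_, ?_, ?_, ?_⟩
  · have e' : (3 : ℝ) * (y : ℝ) = 2 ^ (j0 + 6 * i) * (a : ℝ) - 1 := by
      have : (3 : ℤ) * y = 2 ^ (j0 + 6 * i) * a - 1 := by linarith
      exact_mod_cast this
    have h1 : (1 : ℝ) ≤ |(a : ℝ)| := by
      have : (1 : ℤ) ≤ |a| := Int.one_le_abs ha0
      exact_mod_cast this
    have h2 : (2 : ℝ) ^ i ≤ 2 ^ (j0 + 6 * i) := pow_le_pow_right₀ (by norm_num) (by omega)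
    have h3 : |(3 : ℝ) * (y : ℝ)| = 3 * |(y : ℝ)| := by rw [abs_mul]; norm_num
    have h4 : |(2 : ℝ) ^ (j0 + 6 * i) * (a : ℝ)| - |(1 : ℝ)| ≤ |(3 : ℝ) * (y : ℝ)| := by
      rw [e']; exact abs_sub_abs_le_abs_sub _ _
    rw [h3, abs_mul, abs_one, abs_of_pos (by positivity : (0 : ℝ) < 2 ^ (j0 + 6 * i))] at h4
    have h5 : (2 : ℝ) ^ (j0 + 6 * i) ≤ 2 ^ (j0 + 6 * i) * |(a : ℝ)| := le_mul_of_one_le_right (by positivity) h1
    have h6 := le_abs_self R
    linarith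
  · rw [hpow, mul_assoc] at e
    obtain ⟨q, hq⟩ : ∃ q : ℤ, q = 2 ^ (j0 + 6 * i - 1) * a := ⟨_, rfl⟩
    rw [← hq] at e
    omega
  · intro hp
    have : (1 : ℤ) ≤ 2 ^ (j0 + 6 * i - 1) * a := by
      have := pow_pos (by norm_num : (0 : ℤ) < 2) (j0 + 6 * i - 1)
      nlinarith
    rw [hpow, mul_assoc] at e
    linarith
  · intro hn
    have : (2 : ℤ) ^ (j0 + 6 * i) * a < 0 := mul_neg_of_pos_of_neg (by positivity) hn
    linarith

/-- uniform counting theorem: at least `c (x/|a|)^(1-ε)` integers of absolute value at most `x` in the backward orbit of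
`a`, for all `a` prime to 3 and all `x ≥ |a|` -/
theorem ucount (hERG : ERG) (hAN : AN) {ε : ℝ} (hε : 0 < ε) :
    ∃ c : ℝ, 0 < c ∧ ∀ a : ℤ, ¬ (3 : ℤ) ∣ a → ∀ x : ℝ, |(a : ℝ)| ≤ x → ∃ S : Finset ℤ,
      (∀ N ∈ S, |(N : ℝ)| ≤ x ∧ (a % 2 = 1 → N % 2 = 1) ∧ (0 < a → 0 < N) ∧ (a < 0 → N < 0) ∧
        ∃ w : List ℕ, (∀ b ∈ w, 1 ≤ b) ∧ cp w a ∧ nx w a = N) ∧ c * (x / |(a : ℝ)|) ^ (1 - ε) ≤ (S.card : ℝ) := by
  classical
  obtain ⟨k, hk10, hk1, hu⟩ := hAN (ε / 64) (by positivity) 10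
  obtain ⟨L0, hL0⟩ := hERG (KK k hk1) (psi k) (psi_nonneg k) (psi_per k) (ε / 64) (by positivity)
  obtain ⟨J, hJ⟩ := exists_start_unif ((2 : ℝ) ^ (k + 1))
  have hk5 : 5 ≤ k := by omega
  have hkR : (10 : ℝ) ≤ k := by exact_mod_cast hk10
  have hl2 : (0.6931471803 : ℝ) < Real.log 2 := Real.log_two_gt_d9
  have hl2' : Real.log 2 < 1 := by have := Real.log_two_lt_d9; linarith
  set CC : ℝ := Real.log 2 + 2 * (ε / 64) * k with hCC
  set D : ℝ := (2 : ℝ) ^ (7 * k + 1) with hD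
  have hDpos : 0 < D := by rw [hD]; positivity
  have hD1 : 1 ≤ D := by rw [hD]; exact one_le_pow₀ (by norm_num)
  set E : ℝ := D * 2 ^ J with hE
  have hEpos : 0 < E := by rw [hE]; positivity
  have hE1 : 1 ≤ E := by
    rw [hE]; exact one_le_mul_of_one_le_of_one_le hD1 (one_le_pow₀ (by norm_num))
  set T0 : ℝ := Real.exp (L0 * k) with hT0def
  have hT01 : 1 ≤ T0 := Real.one_le_exp (by positivity)
  set c1 : ℝ := Real.exp (-CC) / (2 * (2 / ε + 1)) / (1 + E) with hc1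
  have hc1pos : 0 < c1 := by rw [hc1]; positivity
  refine ⟨min c1 (1 / (E * T0)), lt_min hc1pos (by positivity), ?_⟩
  intro a ha x hx
  have ha0 : a ≠ 0 := by intro h; exact ha (h ▸ dvd_zero _)
  have ha1 : (1 : ℝ) ≤ |(a : ℝ)| := by
    have : (1 : ℤ) ≤ |a| := Int.one_le_abs ha0
    exact_mod_cast this
  have hapos : 0 < |(a : ℝ)| := by linarith
  set r : ℝ := x / |(a : ℝ)| with hr
  have hr1 : 1 ≤ r := by rw [hr, le_div_iff₀ hapos]; linarith
  have hrpos : 0 < r := by linarith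
  have hxr : x = r * |(a : ℝ)| := by rw [hr]; field_simp
  clear_value r
  by_cases hsmall : r < E * T0 ∨ 1 ≤ ε
  · -- the point `a` itself
    refine ⟨{a}, ?_, ?_⟩
    · intro N hN
      rw [mem_singleton] at hN
      subst hN
      exact ⟨hx, id, id, id, [], by simp, cp_nil N, nx_nil N⟩
    · rw [card_singleton, Nat.cast_one]
      have hET : 1 ≤ E * T0 := one_le_mul_of_one_le_of_one_le hE1 hT01
      have h1 : r ^ (1 - ε) ≤ E * T0 := by
        rcases hsmall with h | h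
        · calc r ^ (1 - ε) ≤ r ^ (1 : ℝ) := Real.rpow_le_rpow_of_exponent_le hr1 (by linarith)
            _ = r := Real.rpow_one r
            _ ≤ E * T0 := h.le
        · calc r ^ (1 - ε) ≤ r ^ (0 : ℝ) := Real.rpow_le_rpow_of_exponent_le hr1 (by linarith)
            _ = 1 := Real.rpow_zero r
            _ ≤ E * T0 := hET
      have h2 : 0 ≤ r ^ (1 - ε) := (Real.rpow_pos_of_pos hrpos _).le
      calc min c1 (1 / (E * T0)) * r ^ (1 - ε) ≤ (1 / (E * T0)) * r ^ (1 - ε) :=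
            mul_le_mul_of_nonneg_right (min_le_right _ _) h2
        _ ≤ (1 / (E * T0)) * (E * T0) :=
            mul_le_mul_of_nonneg_left h1 (by positivity)
        _ = 1 := by field_simp
  push Not at hsmall
  obtain ⟨hsmall, hε1⟩ := hsmall
  obtain ⟨j, hjJ, hj1, hjg, hjl, hjo, hjp, hjn⟩ := hJ a ha
  set M := nx [j] a with hM
  have hMpos : (1 : ℝ) ≤ |(M : ℝ)| := le_trans (one_le_pow₀ (by norm_num)) hjl
  have hMpos' : 0 < |(M : ℝ)| := by linarith
  have hMa : |(M : ℝ)| ≤ 2 ^ J * |(a : ℝ)| := by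
    have e := abs_nx_le hjg.1 (fun c hc => by rw [List.mem_singleton.mp hc]; exact hj1)
    simp only [List.length_singleton, List.sum_singleton, pow_one] at e
    have h1 : (2 : ℝ) ^ j ≤ 2 ^ J := pow_le_pow_right₀ (by norm_num) hjJ
    have h2 : (2 : ℝ) ^ j * (|(a : ℝ)| + 2) ≤ 2 ^ J * (3 * |(a : ℝ)|) := by
      apply mul_le_mul h1 (by linarith) (by positivity) (by positivity)
    linarith
  set T := x / D with hTdef
  have hxT : x = D * T := by rw [hTdef]; field_simp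
  -- Q = T/|M|
  set Q : ℝ := T / |(M : ℝ)| with hQdef
  have hTQ : T = Q * |(M : ℝ)| := by rw [hQdef]; field_simp
  have hQE : r / E ≤ Q := by
    rw [div_le_iff₀ hEpos]
    have h1 : r * |(a : ℝ)| = Q * |(M : ℝ)| * D := by
      rw [← hTQ, ← hxr, hxT]; ring
    have h2 : r * |(a : ℝ)| ≤ Q * E * |(a : ℝ)| := by
      rw [h1, hE]
      have hQnn : 0 ≤ Q := by rw [hQdef, hTdef, hxr]; positivity
      calc Q * |(M : ℝ)| * D ≤ Q * (2 ^ J * |(a : ℝ)|) * D := by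
            apply mul_le_mul_of_nonneg_right _ hDpos.le
            exact mul_le_mul_of_nonneg_left hMa hQnn
        _ = _ := by ring
    exact le_of_mul_le_mul_right h2 hapos
  have hrE : T0 ≤ r / E := by rw [le_div_iff₀ hEpos]; linarith
  have hQ0 : T0 ≤ Q := hrE.trans hQE
  have hQ1 : 1 ≤ Q := hT01.trans hQ0
  have hQpos : 0 < Q := by linarith
  have hTM : |(M : ℝ)| ≤ T := by rw [hTQ]; exact le_mul_of_one_le_left hMpos'.le hQ1
  have hT1 : 1 ≤ T := hMpos.trans hTM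
  have hTk : (2 : ℝ) ^ k ≤ T := by
    refine le_trans ?_ (hjl.trans hTM)
    exact pow_le_pow_right₀ (by norm_num) (by omega)
  have hTpos : 0 < T := by linarith
  have hlogQ : (L0 : ℝ) * k ≤ Real.log Q := by
    rw [← Real.log_exp ((L0 : ℝ) * k)]; exact Real.log_le_log (Real.exp_pos _) hQ0
  have hlogQ0 : 0 ≤ Real.log Q := Real.log_nonneg hQ1
  have hlogTQ : Real.log T = Real.log Q + Real.log |(M : ℝ)| := by
    rw [hTQ, Real.log_mul hQpos.ne' hMpos'.ne']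
  set n : ℕ := ⌈10 * Real.log Q / (k * Real.log 2)⌉₊ with hn
  have hkl : 0 < (k : ℝ) * Real.log 2 := by positivity
  have hn1 : 10 * Real.log Q / (k * Real.log 2) ≤ n := Nat.le_ceil _
  have hn2 : (n : ℝ) < 10 * Real.log Q / (k * Real.log 2) + 1 := Nat.ceil_lt_add_one (by positivity)
  have hnL : L0 ≤ n := by
    have : (L0 : ℝ) ≤ n := by
      refine le_trans ?_ hn1
      rw [le_div_iff₀ hkl]
      have : (L0 : ℝ) * (k * Real.log 2) ≤ L0 * k * 1 := by
        rw [← mul_assoc]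
        exact mul_le_mul_of_nonneg_left hl2'.le (by positivity)
      linarith
    exact_mod_cast this
  have hrho : T ≤ rho k ^ n * |(M : ℝ)| := by
    have h1 : Q ≤ rho k ^ n := by
      rw [← Real.log_le_log_iff hQpos (pow_pos (rho_pos k) n), Real.log_pow]
      have h2 := log_rho hk10
      have h3 : Real.log Q ≤ n * ((k : ℝ) / 10 * Real.log 2) := by
        rw [div_le_iff₀ hkl] at hn1
        linarith
      exact le_trans h3 (mul_le_mul_of_nonneg_left h2 (by positivity))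
    rw [hTQ]
    exact mul_le_mul_of_nonneg_right h1 hMpos'.le
  have hlow := LL'_lower hk1 hk5 hT1 n M hjo hjg.2 hjl hrho
  have hsum := hL0 n hnL M hjg.2
  have hu' : uav (KK k hk1).k (psi k) ≤ ε / 64 * k := hu
  have hsum2 : ∑ l ∈ range n, ((KK k hk1).P^[l] (psi k)) M ≤ ε / 2 * Real.log Q + 2 * (ε / 64) * k := by
    have h1 : (n : ℝ) * (uav (KK k hk1).k (psi k) + ε / 64) ≤ n * (2 * (ε / 64) * k) := by
      apply mul_le_mul_of_nonneg_left _ (by positivity)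
      have : ε / 64 ≤ ε / 64 * k := le_mul_of_one_le_right (by positivity) (by linarith)
      linarith
    have h2 : (n : ℝ) * (2 * (ε / 64) * k) ≤ (10 * Real.log Q / (k * Real.log 2) + 1) * (2 * (ε / 64) * k) :=
      mul_le_mul_of_nonneg_right hn2.le (by positivity)
    have h3 : (10 * Real.log Q / (k * Real.log 2) + 1) * (2 * (ε / 64) * k) =
        (20 / Real.log 2) * (ε / 64) * Real.log Q + 2 * (ε / 64) * k := by
      field_simp
      ring
    have h4 : 20 / Real.log 2 ≤ 32 := by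
      rw [div_le_iff₀ (by linarith)]; linarith
    have h5 : (20 / Real.log 2) * (ε / 64) * Real.log Q ≤ 32 * (ε / 64) * Real.log Q := by
      apply mul_le_mul_of_nonneg_right _ hlogQ0
      exact mul_le_mul_of_nonneg_right h4 (by positivity)
    linarith
  have hSS : Real.log (SS k M) ≤ Real.log 2 + Real.log |(M : ℝ)| := by
    rw [← Real.log_mul (by norm_num) hMpos'.ne']
    apply Real.log_le_log (SS_pos k M)
    unfold SS
    linarith
  have hlow2 : (1 - ε / 2) * Real.log Q - CC ≤ Real.log ((LL' k T n M).card : ℝ) := by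
    rw [hCC]; linarith
  have hcardpos : (0 : ℝ) < ((LL' k T n M).card : ℝ) := by
    exact_mod_cast card_pos.mpr (LL'_nonempty k T n M hjg.2)
  have hcard : Real.exp (-CC) * Q ^ (1 - ε / 2) ≤ ((LL' k T n M).card : ℝ) := by
    rw [Real.le_log_iff_exp_le hcardpos] at hlow2
    refine le_trans (le_of_eq ?_) hlow2
    rw [Real.rpow_def_of_pos hQpos, ← Real.exp_add]
    congr 1
    ring
  set S := (LL' k T n M).image Prod.snd with hS
  have hsub : (LL' k T n M).card ≤ (n + 1) * S.card := by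
    rw [← card_range (n + 1), ← card_product]
    apply card_le_card
    intro p hp
    rw [mem_product, mem_range]
    exact ⟨by have := (LL'_path n M p hp).1; omega, mem_image_of_mem _ hp⟩
  have hsubR : ((LL' k T n M).card : ℝ) ≤ (n + 1) * S.card := by exact_mod_cast hsub
  have hn3 : (n : ℝ) + 1 ≤ 2 * (2 / ε + 1) * Q ^ (ε / 2) := by
    have h1 : 10 * Real.log Q / (k * Real.log 2) ≤ 2 * Real.log Q := by
      rw [div_le_iff₀ hkl]
      have : 5 ≤ (k : ℝ) * Real.log 2 := by nlinarith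
      nlinarith
    have h2 : Real.log Q ≤ Q ^ (ε / 2) / (ε / 2) := Real.log_le_rpow_div hQpos.le (by positivity)
    have h3 : (1 : ℝ) ≤ Q ^ (ε / 2) := Real.one_le_rpow hQ1 (by positivity)
    have h4 : Q ^ (ε / 2) / (ε / 2) = 2 / ε * Q ^ (ε / 2) := by field_simp
    rw [h4] at h2
    linarith
  refine ⟨S, ?_, ?_⟩
  · intro N hN
    rw [hS, mem_image] at hN
    obtain ⟨p, hp, rfl⟩ := hN
    obtain ⟨-, w, w1, w2, w3, w4⟩ := LL'_path n M p hp
    obtain ⟨s1, s2, s3⟩ := LL'_sign hk5 n M hjo hjl p hp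
    have hb := LL'_bound hk1 hTk n M (by
      refine le_trans hTM ?_
      exact le_mul_of_one_le_left hTpos.le (one_le_pow₀ (by norm_num))) p hp
    have hc : cp ([j] ++ w) a := cp_append.mpr ⟨hjg.1, w3⟩
    refine ⟨?_, fun _ => s1, fun h => s2 (hjp h), fun h => s3 (hjn h), [j] ++ w, ?_, hc, ?_⟩
    · refine le_trans hb ?_
      rw [hxT, hD, pow_succ]
      have : (0 : ℝ) < 2 ^ (7 * k) * T := by positivity
      linarith
    · intro b hb'
      rcases List.mem_append.mp hb' with h | h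
      · rw [List.mem_singleton.mp h]; exact hj1
      · exact w2 b h
    · rw [nx_append hc, w4]
  · have hQr : 0 < Q ^ (ε / 2) := Real.rpow_pos_of_pos hQpos _
    have e2 : Q ^ (1 - ε / 2) = Q ^ (1 - ε) * Q ^ (ε / 2) := by
      rw [← Real.rpow_add hQpos]; congr 1; ring
    have h1 : Real.exp (-CC) * Q ^ (1 - ε) * Q ^ (ε / 2) ≤ (S.card : ℝ) * (2 * (2 / ε + 1)) * Q ^ (ε / 2) := by
      calc Real.exp (-CC) * Q ^ (1 - ε) * Q ^ (ε / 2) = Real.exp (-CC) * Q ^ (1 - ε / 2) := by rw [e2]; ring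
        _ ≤ ((LL' k T n M).card : ℝ) := hcard
        _ ≤ (n + 1) * S.card := hsubR
        _ ≤ (2 * (2 / ε + 1) * Q ^ (ε / 2)) * S.card := mul_le_mul_of_nonneg_right hn3 (Nat.cast_nonneg _)
        _ = _ := by ring
    have h2 : Real.exp (-CC) * Q ^ (1 - ε) ≤ (S.card : ℝ) * (2 * (2 / ε + 1)) := le_of_mul_le_mul_right h1 hQr
    have h3 : r ^ (1 - ε) ≤ (1 + E) * Q ^ (1 - ε) := by
      have h4 : (r / E) ^ (1 - ε) ≤ Q ^ (1 - ε) :=
        Real.rpow_le_rpow (by positivity) hQE (by linarith)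
      have h5 : (r / E) ^ (1 - ε) = r ^ (1 - ε) / E ^ (1 - ε) := Real.div_rpow hrpos.le hEpos.le _
      have h6 : E ^ (1 - ε) ≤ 1 + E := by
        calc E ^ (1 - ε) ≤ E ^ (1 : ℝ) := Real.rpow_le_rpow_of_exponent_le hE1 (by linarith)
          _ = E := Real.rpow_one E
          _ ≤ 1 + E := by linarith
      rw [h5, div_le_iff₀ (Real.rpow_pos_of_pos hEpos _)] at h4
      have h7 : 0 ≤ Q ^ (1 - ε) := (Real.rpow_pos_of_pos hQpos _).le
      calc r ^ (1 - ε) ≤ Q ^ (1 - ε) * E ^ (1 - ε) := h4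
        _ ≤ Q ^ (1 - ε) * (1 + E) := mul_le_mul_of_nonneg_left h6 h7
        _ = _ := by ring
    have h8 : 0 ≤ r ^ (1 - ε) := (Real.rpow_pos_of_pos hrpos _).le
    calc min c1 (1 / (E * T0)) * r ^ (1 - ε) ≤ c1 * r ^ (1 - ε) :=
          mul_le_mul_of_nonneg_right (min_le_left _ _) h8
      _ ≤ c1 * ((1 + E) * Q ^ (1 - ε)) := mul_le_mul_of_nonneg_left h3 hc1pos.le
      _ = Real.exp (-CC) * Q ^ (1 - ε) / (2 * (2 / ε + 1)) := by rw [hc1]; field_simp
      _ ≤ S.card := by rw [div_le_iff₀ (by positivity)]; exact h2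

/-- negative basins, uniform in the target -/
theorem unegbasin_of (hERG : ERG) (hAN : AN) : ∀ ε : ℝ, 0 < ε → ∃ c : ℝ, 0 < c ∧
    ∀ a : ℤ, a < 0 → Odd a → ¬ (3 : ℤ) ∣ a → ∀ x : ℝ, |(a : ℝ)| ≤ x →
      c * (x / |(a : ℝ)|) ^ (1 - ε) ≤ (Nat.card {N : ℤ // N < 0 ∧ Odd N ∧ -x ≤ (N : ℝ) ∧
        ∃ k : ℕ, (fun n : ℤ => (3 * n + 1) / 2 ^ padicValInt 2 (3 * n + 1))^[k] N = a} : ℝ) := by
  classical
  intro ε hε
  obtain ⟨c, hc, H⟩ := ucount hERG hAN hε
  refine ⟨c, hc, fun a ha hodd h3 x hx => ?_⟩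
  obtain ⟨S, h1, h2⟩ := H a h3 x hx
  set A : Set ℤ := {N : ℤ | N < 0 ∧ Odd N ∧ -x ≤ (N : ℝ) ∧
        ∃ k : ℕ, (fun n : ℤ => (3 * n + 1) / 2 ^ padicValInt 2 (3 * n + 1))^[k] N = a} with hA
  have hfin : A.Finite := by
    apply Set.Finite.subset (Set.finite_Icc ⌈-x⌉ 0)
    rintro n ⟨h1, _, h3, _⟩
    exact ⟨Int.ceil_le.mpr h3, h1.le⟩
  have hsub : (S : Set ℤ) ⊆ A := by
    intro N hN
    obtain ⟨a1, a2, a3, a4, w, w2, w3, w4⟩ := h1 N hN
    refine ⟨a4 ha, Int.odd_iff.mpr (a2 (Int.odd_iff.mp hodd)), ?_, w.length, ?_⟩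
    · have := neg_abs_le (N : ℝ)
      linarith
    · rw [← w4]
      exact syr_reach w a (Int.odd_iff.mp hodd) w3 w2
  have hcard : S.card ≤ A.ncard := by
    rw [← Set.ncard_coe_finset]
    exact Set.ncard_le_ncard hsub hfin
  refine h2.trans ?_
  have : Nat.card {N : ℤ // N < 0 ∧ Odd N ∧ -x ≤ (N : ℝ) ∧
      ∃ k : ℕ, (fun n : ℤ => (3 * n + 1) / 2 ^ padicValInt 2 (3 * n + 1))^[k] N = a} = A.ncard := rfl
  rw [this]
  exact_mod_cast hcard

/-- positive integers under the Collatz map, uniform in the target -/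
theorem uposbasin_of (hERG : ERG) (hAN : AN) : ∀ ε : ℝ, 0 < ε → ∃ c : ℝ, 0 < c ∧
    ∀ a : ℕ, ¬ 3 ∣ a → ∀ x : ℝ, (a : ℝ) ≤ x →
      c * (x / (a : ℝ)) ^ (1 - ε) ≤ (Nat.card {n : ℕ // 1 ≤ n ∧ (n : ℝ) ≤ x ∧
        ∃ k : ℕ, (fun m : ℕ => if m % 2 = 0 then m / 2 else 3 * m + 1)^[k] n = a} : ℝ) := by
  classical
  intro ε hε
  obtain ⟨c, hc, H⟩ := ucount hERG hAN hε
  refine ⟨c, hc, fun a h3 x hx => ?_⟩
  have ha0 : 0 < a := Nat.pos_of_ne_zero (fun h => h3 (h ▸ dvd_zero _))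
  have hcast : |((a : ℤ) : ℝ)| = (a : ℝ) := by
    rw [Int.cast_natCast, abs_of_nonneg (Nat.cast_nonneg a)]
  obtain ⟨S, h1, h2⟩ := H (a : ℤ) (by omega) x (by rw [hcast]; exact hx)
  rw [hcast] at h2
  set A : Set ℕ := {n : ℕ | 1 ≤ n ∧ (n : ℝ) ≤ x ∧
          ∃ k : ℕ, (fun m : ℕ => if m % 2 = 0 then m / 2 else 3 * m + 1)^[k] n = a} with hA
  have hfin : A.Finite := by
    apply Set.Finite.subset (Set.finite_Iic ⌊x⌋₊)
    rintro n ⟨-, h, -⟩
    exact Nat.le_floor h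
  have hapos : (0 : ℤ) < (a : ℤ) := by exact_mod_cast ha0
  have hsub : ((S.image Int.toNat : Finset ℕ) : Set ℕ) ⊆ A := by
    intro n hn
    rw [Finset.mem_coe, mem_image] at hn
    obtain ⟨N, hN, rfl⟩ := hn
    obtain ⟨a1, a2, a3, a4, w, w2, w3, w4⟩ := h1 N hN
    have hpos : 0 < N := a3 hapos
    refine ⟨by omega, ?_, ?_⟩
    · have : ((N.toNat : ℕ) : ℝ) = (N : ℝ) := by
        have : ((N.toNat : ℕ) : ℤ) = N := Int.toNat_of_nonneg hpos.le
        exact_mod_cast this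
      rw [this]
      exact le_trans (le_abs_self _) a1
    · obtain ⟨k, hk⟩ := collatz_reach _ rfl w a hapos w3 w2
      rw [w4] at hk
      exact ⟨k, hk⟩
  have hcard : S.card ≤ A.ncard := by
    rw [← card_image_of_injOn (f := Int.toNat) (s := S), ← Set.ncard_coe_finset]
    · exact Set.ncard_le_ncard hsub hfin
    · intro N hN N' hN' h
      obtain ⟨-, -, a3, -⟩ := h1 N hN
      obtain ⟨-, -, b3, -⟩ := h1 N' hN'
      have := a3 hapos
      have := b3 hapos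
      omega
  refine h2.trans ?_
  have : Nat.card {n : ℕ // 1 ≤ n ∧ (n : ℝ) ≤ x ∧
          ∃ k : ℕ, (fun m : ℕ => if m % 2 = 0 then m / 2 else 3 * m + 1)^[k] n = a} = A.ncard := rfl
  rw [this]
  exact_mod_cast hcard

end Pool.Agent.Helper89.Q1
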